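import Mathlib

/-!
Varieties of Lie algebras over a field `F`, given by sets of identities; definitions.
-/

namespace Pool.Agent.Lib.MP_8f946f_al

open Polynomial

variable {F : Type} [Field F]

/-- `L` satisfies all identities of `Γ`, i.e. belongs to the variety defined by `Γ`. The identities
are elements of the free Lie algebra on countably many generators. -/
def Satisfies (Γ : Set (FreeLieAlgebra F ℕ)) (L : Type) [LieRing L] [LieAlgebra F L] : Prop :=
  ∀ φ ∈ Γ, ∀ v : ℕ → L, FreeLieAlgebra.lift F v φ = 0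

/-- The verbal ideal of `L` attached to the identities `Δ`: the ideal generated by all values of
elements of `Δ` in `L`. It is the smallest ideal `N` with `L/N` in the variety defined by `Δ`. -/
def verbal (Δ : Set (FreeLieAlgebra F ℕ)) (L : Type) [LieRing L] [LieAlgebra F L] :
    LieIdeal F L :=
  LieSubmodule.lieSpan F L {y | ∃ φ ∈ Δ, ∃ v : ℕ → L, FreeLieAlgebra.lift F v φ = y}

/-- The lower central series of an ideal `N`: `gam N 0 = N` and `gam N (i+1) = [N, gam N i]`. So
`gam N c = 0` says that `N` is nilpotent of class at most `c`. -/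
def gam {L : Type} [LieRing L] [LieAlgebra F L] (N : LieIdeal F L) : ℕ → LieIdeal F L
  | 0 => N
  | i + 1 => ⁅N, gam N i⁆

/-- `L` is finitely generated as a Lie algebra. -/
def IsFG (F : Type) [Field F] (L : Type) [LieRing L] [LieAlgebra F L] : Prop :=
  ∃ s : Set L, s.Finite ∧ LieSubalgebra.lieSpan F L s = ⊤

/-- `L` is residually finite: every non-zero element is avoided by an ideal of finite
codimension. -/
def IsRF (F : Type) [Field F] (L : Type) [LieRing L] [LieAlgebra F L] : Prop :=
  ∀ a : L, a ≠ 0 → ∃ I : LieIdeal F L, FiniteDimensional F (L ⧸ I) ∧ a ∉ I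

/-- The variety defined by `Γ` is locally residually finite. -/
def LocallyRF (Γ : Set (FreeLieAlgebra F ℕ)) : Prop :=
  ∀ (L : Type) [LieRing L] [LieAlgebra F L], Satisfies Γ L → IsFG F L → IsRF F L

/-- The variety defined by `Δ` is locally finite: its finitely generated algebras are finite
dimensional. -/
def LocallyFinite (Δ : Set (FreeLieAlgebra F ℕ)) : Prop :=
  ∀ (L : Type) [LieRing L] [LieAlgebra F L], Satisfies Δ L → IsFG F L → FiniteDimensional F L

/-- The variety defined by `Γ` is locally nilpotent-by-finite: each of its finitely generated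
algebras has a nilpotent ideal of finite codimension. -/
def LocallyNilpotentByFinite (Γ : Set (FreeLieAlgebra F ℕ)) : Prop :=
  ∀ (L : Type) [LieRing L] [LieAlgebra F L], Satisfies Γ L → IsFG F L →
    ∃ (N : LieIdeal F L) (c : ℕ), FiniteDimensional F (L ⧸ N) ∧ gam N c = ⊥

/-- In a Lie algebra, the element
`[(ad x)^k f, g] - ∑_{j<k} c_j(ad x) [(ad x)^j f, g]`, where `c_j ∈ F[X]`. -/
noncomputable def monicForm {L : Type} [LieRing L] [LieAlgebra F L] (k : ℕ) (c : ℕ → F[X])
    (x f g : L) : L :=
  ⁅((LieAlgebra.ad F L x) ^ k) f, g⁆ -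
    ∑ j ∈ Finset.range k, (aeval (LieAlgebra.ad F L x) (c j)) ⁅((LieAlgebra.ad F L x) ^ j) f, g⁆

/-- The ideal `[A + B, [A, B]]`. -/
def third {L : Type} [LieRing L] [LieAlgebra F L] (A B : LieIdeal F L) : LieIdeal F L :=
  ⁅A ⊔ B, ⁅A, B⁆⁆

/-- The ideal `[A + B, [A, B]]` of the free Lie algebra with free generators
`x_0, x_1, x_2, …`, where `A` is the ideal generated by `x_1` and `B` the ideal generated by
`x_2`: Lie polynomials of degree at least one in `x_1`, at least one in `x_2` and at least three
in `x_1` and `x_2` together. -/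
noncomputable def freeThird (F : Type) [Field F] : LieIdeal F (FreeLieAlgebra F ℕ) :=
  third (LieSubmodule.lieSpan F (FreeLieAlgebra F ℕ) {FreeLieAlgebra.of F 1})
    (LieSubmodule.lieSpan F (FreeLieAlgebra F ℕ) {FreeLieAlgebra.of F 2})

/-- The variety defined by `Γ` satisfies an identity of the form
`[(ad x_0)^k x_1, x_2] = ∑_{j<k} c_j(ad x_0) [(ad x_0)^j x_1, x_2] + w`, with `c_j ∈ F[X]`
and `w ∈ freeThird F`. -/
def HasMonicIdentity (Γ : Set (FreeLieAlgebra F ℕ)) : Prop :=
  ∃ (k : ℕ) (c : ℕ → F[X]), ∃ w ∈ freeThird F,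
    ∀ (L : Type) [LieRing L] [LieAlgebra F L], Satisfies Γ L →
      Satisfies {monicForm k c (FreeLieAlgebra.of F 0) (FreeLieAlgebra.of F 1)
        (FreeLieAlgebra.of F 2) - w} L

end Pool.Agent.Lib.MP_8f946f_al
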