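import Mathlib
import Pool.Agent.Lib.MP_8f946f_al.Defs

section
/-!
Closure properties of varieties, and the evaluation map `ev`.
-/
namespace Pool.Agent.Lib.MP_8f946f_al

open Polynomial

section closure

variable {F : Type} [Field F]

lemma lift_comp {L L' : Type} [LieRing L] [LieAlgebra F L] [LieRing L'] [LieAlgebra F L']
    (q : L →ₗ⁅F⁆ L') (v : ℕ → L) (φ : FreeLieAlgebra F ℕ) :
    q (FreeLieAlgebra.lift F v φ) = FreeLieAlgebra.lift F (fun n => q (v n)) φ := by
  have h : q.comp (FreeLieAlgebra.lift F v) = FreeLieAlgebra.lift F (fun n => q (v n)) := by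
    apply FreeLieAlgebra.hom_ext
    intro x
    rw [LieHom.comp_apply, FreeLieAlgebra.lift_of_apply, FreeLieAlgebra.lift_of_apply]
  rw [← h, LieHom.comp_apply]

lemma Satisfies.of_injective {Γ : Set (FreeLieAlgebra F ℕ)} {L L' : Type} [LieRing L]
    [LieAlgebra F L] [LieRing L'] [LieAlgebra F L'] (hL : Satisfies Γ L') (q : L →ₗ⁅F⁆ L')
    (hq : Function.Injective q) : Satisfies Γ L := by
  intro φ hφ v
  apply hq
  rw [lift_comp, hL φ hφ, map_zero]

lemma Satisfies.of_surjective {Γ : Set (FreeLieAlgebra F ℕ)} {L L' : Type} [LieRing L]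
    [LieAlgebra F L] [LieRing L'] [LieAlgebra F L'] (hL : Satisfies Γ L) (q : L →ₗ⁅F⁆ L')
    (hq : Function.Surjective q) : Satisfies Γ L' := by
  intro φ hφ v
  choose w hw using fun n => hq (v n)
  have : v = fun n => q (w n) := by
    ext n
    rw [hw]
  rw [this, ← lift_comp, hL φ hφ, map_zero]

lemma Satisfies.subalgebra {Γ : Set (FreeLieAlgebra F ℕ)} {L : Type} [LieRing L]
    [LieAlgebra F L] (hL : Satisfies Γ L) (K : LieSubalgebra F L) : Satisfies Γ K :=
  hL.of_injective K.incl Subtype.coe_injective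

/-- The quotient map as a morphism of Lie algebras. -/
def mkHom {L : Type} [LieRing L] [LieAlgebra F L] (I : LieIdeal F L) : L →ₗ⁅F⁆ L ⧸ I :=
  { (LieSubmodule.Quotient.mk' I : L →ₗ[F] L ⧸ I) with
    map_lie' := fun {_ _} => rfl }

lemma mkHom_surjective {L : Type} [LieRing L] [LieAlgebra F L] (I : LieIdeal F L) :
    Function.Surjective (mkHom I) := Quot.mk_surjective

lemma mkHom_eq_zero {L : Type} [LieRing L] [LieAlgebra F L] (I : LieIdeal F L) (a : L) :
    mkHom I a = 0 ↔ a ∈ I := LieSubmodule.Quotient.mk_eq_zero I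

lemma Satisfies.quotient {Γ : Set (FreeLieAlgebra F ℕ)} {L : Type} [LieRing L]
    [LieAlgebra F L] (hL : Satisfies Γ L) (I : LieIdeal F L) : Satisfies Γ (L ⧸ I) :=
  hL.of_surjective (mkHom I) (mkHom_surjective I)

lemma IsFG.of_surjective {L L' : Type} [LieRing L]
    [LieAlgebra F L] [LieRing L'] [LieAlgebra F L'] (hL : IsFG F L) (q : L →ₗ⁅F⁆ L')
    (hq : Function.Surjective q) : IsFG F L' := by
  obtain ⟨s, hs, h⟩ := hL
  refine ⟨q '' s, hs.image _, ?_⟩
  rw [← LieSubalgebra.map_lieSpan, h]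
  rw [eq_top_iff]
  intro y _
  obtain ⟨x, rfl⟩ := hq y
  exact LieSubalgebra.mem_map _ _ _ |>.2 ⟨x, LieSubalgebra.mem_top _, rfl⟩

/-- The product of a family of Lie algebras. -/
def PiLie {ι : Type} (L : ι → Type) : Type := ∀ i, L i

instance piLieRing {ι : Type} (L : ι → Type) [∀ i, LieRing (L i)] : LieRing (PiLie L) where
  toAddCommGroup := inferInstanceAs (AddCommGroup (∀ i, L i))
  bracket := fun u v i => ⁅u i, v i⁆
  add_lie := fun u v w => funext fun i => add_lie (u i) (v i) (w i)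
  lie_add := fun u v w => funext fun i => lie_add (u i) (v i) (w i)
  lie_self := fun u => funext fun i => lie_self (u i)
  leibniz_lie := fun u v w => funext fun i => leibniz_lie (u i) (v i) (w i)

instance piLieAlgebra {ι : Type} (L : ι → Type) [∀ i, LieRing (L i)]
    [∀ i, LieAlgebra F (L i)] : LieAlgebra F (PiLie L) where
  toModule := inferInstanceAs (Module F (∀ i, L i))
  lie_smul := fun t u v => funext fun i => lie_smul t (u i) (v i)

/-- projection -/
def piProj {ι : Type} (L : ι → Type) [∀ i, LieRing (L i)] [∀ i, LieAlgebra F (L i)] (i : ι) :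
    PiLie L →ₗ⁅F⁆ L i where
  toFun := fun u => u i
  map_add' := fun _ _ => rfl
  map_smul' := fun _ _ => rfl
  map_lie' := fun {_ _} => rfl

lemma Satisfies.pi {Γ : Set (FreeLieAlgebra F ℕ)} {ι : Type} (L : ι → Type)
    [∀ i, LieRing (L i)] [∀ i, LieAlgebra F (L i)] (h : ∀ i, Satisfies Γ (L i)) :
    Satisfies Γ (PiLie L) := by
  intro φ hφ v
  funext i
  have := lift_comp (piProj (F := F) L i) v φ
  rw [h i φ hφ] at this
  exact this

end closure

section ev

variable {F : Type} [Field F] {L : Type} [LieRing L] [LieAlgebra F L]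

/-- The evaluation map: `ev x f g h = ∑_j h_j(ad x) [ (ad x)^j f, g ]` for
`h = ∑_j h_j X^j` with `h_j ∈ F[X]`. -/
noncomputable def ev (x f g : L) (h : F[X][X]) : L :=
  h.sum fun j a => (aeval (LieAlgebra.ad F L x) a) ⁅((LieAlgebra.ad F L x) ^ j) f, g⁆

lemma ev_zero (x f g : L) : ev (F := F) x f g 0 = 0 := by simp [ev]

lemma ev_monomial (x f g : L) (j : ℕ) (a : F[X]) :
    ev x f g (monomial j a) =
      (aeval (LieAlgebra.ad F L x) a) ⁅((LieAlgebra.ad F L x) ^ j) f, g⁆ := by
  unfold ev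
  rw [Polynomial.sum_monomial_index]
  simp

lemma ev_add (x f g : L) (h h' : F[X][X]) : ev x f g (h + h') = ev x f g h + ev x f g h' := by
  unfold ev
  rw [Polynomial.sum_add_index]
  · intro i; simp
  · intro i a b
    simp

/-- `ev` as an additive map. -/
noncomputable def evHom (x f g : L) : F[X][X] →+ L where
  toFun := ev x f g
  map_zero' := ev_zero x f g
  map_add' := ev_add x f g

lemma ev_sub (x f g : L) (h h' : F[X][X]) : ev x f g (h - h') = ev x f g h - ev x f g h' :=
  map_sub (evHom x f g) h h'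

lemma ev_C_mul (x f g : L) (a : F[X]) (h : F[X][X]) :
    ev x f g (C a * h) = (aeval (LieAlgebra.ad F L x) a) (ev x f g h) := by
  induction h using Polynomial.induction_on' with
  | add p q hp hq => rw [mul_add, ev_add, ev_add, hp, hq, map_add]
  | monomial n b =>
    rw [C_mul_monomial, ev_monomial, ev_monomial, map_mul]
    rfl

lemma ev_X_pow_mul (x f g : L) (m : ℕ) (h : F[X][X]) :
    ev x f g (X ^ m * h) = ev x (((LieAlgebra.ad F L x) ^ m) f) g h := by
  induction h using Polynomial.induction_on' with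
  | add p q hp hq => rw [mul_add, ev_add, ev_add, hp, hq]
  | monomial n b =>
    rw [X_pow_mul, monomial_mul_X_pow, ev_monomial, ev_monomial, pow_add]
    rfl

lemma ev_one (x f g : L) : ev (F := F) x f g 1 = ⁅f, g⁆ := by
  have : (1 : F[X][X]) = monomial 0 1 := by simp
  rw [this, ev_monomial]
  simp

lemma ev_sub_left (x f f' g : L) (h : F[X][X]) :
    ev x (f - f') g h = ev x f g h - ev x f' g h := by
  induction h using Polynomial.induction_on' with
  | add p q hp hq => rw [ev_add, ev_add, ev_add, hp, hq]; abel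
  | monomial n b =>
    rw [ev_monomial, ev_monomial, ev_monomial]
    simp

lemma ad_pow_mem (I : LieIdeal F L) (x y : L) (hy : y ∈ I) (j : ℕ) :
    ((LieAlgebra.ad F L x) ^ j) y ∈ I := by
  induction j with
  | zero => simpa using hy
  | succ j ih =>
    rw [pow_succ', Module.End.mul_apply, LieAlgebra.ad_apply]
    exact lie_mem_right F L I x _ ih

lemma aeval_ad_mem (I : LieIdeal F L) (x y : L) (hy : y ∈ I) (a : F[X]) :
    (aeval (LieAlgebra.ad F L x) a) y ∈ I := by
  induction a using Polynomial.induction_on' with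
  | add p q hp hq => rw [map_add, LinearMap.add_apply]; exact I.add_mem hp hq
  | monomial n b =>
    rw [aeval_monomial, Module.End.mul_apply, Module.algebraMap_end_apply]
    exact I.smul_mem _ (ad_pow_mem I x y hy n)

lemma ev_mem (I : LieIdeal F L) (x f g : L) (hf : f ∈ I) (h : F[X][X]) : ev x f g h ∈ I := by
  induction h using Polynomial.induction_on' with
  | add p q hp hq => rw [ev_add]; exact I.add_mem hp hq
  | monomial n b =>
    rw [ev_monomial]
    apply aeval_ad_mem
    exact lie_mem_left F L I _ _ (ad_pow_mem I x f hf n)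

lemma map_ev {L' : Type} [LieRing L'] [LieAlgebra F L'] (q : L →ₗ⁅F⁆ L') (x f g : L)
    (h : F[X][X]) : q (ev x f g h) = ev (q x) (q f) (q g) h := by
  have hpow : ∀ (j : ℕ) (y : L), q (((LieAlgebra.ad F L x) ^ j) y) =
      ((LieAlgebra.ad F L' (q x)) ^ j) (q y) := by
    intro j
    induction j with
    | zero => intro y; simp
    | succ j ih =>
      intro y
      rw [pow_succ', pow_succ', Module.End.mul_apply, Module.End.mul_apply, LieAlgebra.ad_apply,
        LieAlgebra.ad_apply, LieHom.map_lie, ih]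
  have haev : ∀ (a : F[X]) (y : L), q ((aeval (LieAlgebra.ad F L x) a) y) =
      (aeval (LieAlgebra.ad F L' (q x)) a) (q y) := by
    intro a y
    induction a using Polynomial.induction_on' with
    | add p r hp hr => simp [hp, hr]
    | monomial n b =>
      rw [aeval_monomial, aeval_monomial, Module.End.mul_apply, Module.End.mul_apply,
        Module.algebraMap_end_apply, Module.algebraMap_end_apply, map_smul, hpow]
  induction h using Polynomial.induction_on' with
  | add p r hp hr => rw [ev_add, ev_add, map_add, hp, hr]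
  | monomial n b =>
    rw [ev_monomial, ev_monomial, haev, LieHom.map_lie, hpow]

end ev

end Pool.Agent.Lib.MP_8f946f_al
end

section
/-!
Words in representatives of a finite quotient, acting on a module.
-/
namespace Pool.Agent.Lib.MP_8f946f_al

open Polynomial

section words

variable {F : Type} [Field F] {L : Type} [LieRing L] [LieAlgebra F L] (N : LieIdeal F L)
variable {M : Type} [AddCommGroup M] [Module F M] [LieRingModule L M] [LieModule F L M]

/-- A section of the quotient map. -/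
noncomputable def sec (q : L ⧸ N) : L := Quotient.out q

lemma mk_sec (q : L ⧸ N) : mkHom N (sec N q) = q := Quotient.out_eq q

lemma sub_sec_mem (y : L) : y - sec N (mkHom N y) ∈ N := by
  rw [← mkHom_eq_zero, map_sub, mk_sec, sub_self]

/-- The action of words. -/
noncomputable def act (l : List (L ⧸ N)) (m : M) : M := l.foldr (fun q v => ⁅sec N q, v⁆) m

lemma act_nil (m : M) : act N [] m = m := rfl

lemma act_cons (q : L ⧸ N) (l : List (L ⧸ N)) (m : M) : act N (q :: l) m =
    ⁅sec N q, act N l m⁆ := rfl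

lemma act_append (l l' : List (L ⧸ N)) (m : M) : act N (l ++ l') m = act N l (act N l' m) := by
  induction l with
  | nil => rfl
  | cons q l ih => rw [List.cons_append, act_cons, act_cons, ih]

variable (F) in
lemma act_replicate (q : L ⧸ N) (n : ℕ) (m : M) : act N (List.replicate n q) m =
    ((LieModule.toEnd F L M (sec N q)) ^ n) m := by
  induction n with
  | zero => rfl
  | succ n ih => rw [List.replicate_succ, act_cons, ih, pow_succ', Module.End.mul_apply,
      LieModule.toEnd_apply_apply]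

/-- The additive group generated by the values of short words, and a subgroup `B`. -/
def Wd (B : AddSubgroup M) (m : M) (n : ℕ) : AddSubgroup M :=
  AddSubgroup.closure {v | ∃ l : List (L ⧸ N), l.length < n ∧ act N l m = v} ⊔ B

lemma Wd_mono (B : AddSubgroup M) (m : M) {n n' : ℕ} (h : n ≤ n') :
    Wd N B m n ≤ Wd N B m n' := by
  apply sup_le_sup_right
  apply AddSubgroup.closure_mono
  rintro v ⟨l, hl, rfl⟩
  exact ⟨l, by omega, rfl⟩

lemma act_mem_Wd (B : AddSubgroup M) (m : M) {n : ℕ} (l : List (L ⧸ N)) (hl : l.length < n) :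
    act N l m ∈ Wd N B m n :=
  AddSubgroup.mem_sup_left (AddSubgroup.subset_closure ⟨l, hl, rfl⟩)

include F in
lemma lie_mem_Wd (B : AddSubgroup M) (hB : ∀ y : L, ∀ b ∈ B, ⁅y, b⁆ ∈ B) (m : M) {n : ℕ} (q : L ⧸ N)
    (v : M) (hv : v ∈ Wd N B m n) : ⁅sec N q, v⁆ ∈ Wd N B m (n + 1) := by
  have h : Wd N B m n ≤ AddSubgroup.comap
      (LieModule.toEnd F L M (sec N q)).toAddMonoidHom (Wd N B m (n + 1)) := by
    apply sup_le
    · rw [AddSubgroup.closure_le]
      rintro v ⟨l, hl, rfl⟩
      change ⁅sec N q, act N l m⁆ ∈ Wd N B m (n + 1)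
      rw [← act_cons]
      exact act_mem_Wd N B m _ (by simpa using hl)
    · intro b hb
      exact AddSubgroup.mem_sup_right (hB _ _ hb)
  exact h hv

include F in
lemma act_perm (B : AddSubgroup M) (hB : ∀ y : L, ∀ b ∈ B, ⁅y, b⁆ ∈ B)
    (hN : ∀ n ∈ N, ∀ v : M, ⁅n, v⁆ ∈ B) (m : M) {l l' : List (L ⧸ N)} (h : l.Perm l') :
    act N l m - act N l' m ∈ Wd N B m l.length := by
  induction h with
  | nil => rw [sub_self]; exact AddSubgroup.zero_mem _
  | cons q h ih =>
    rw [act_cons, act_cons, ← lie_sub]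
    exact lie_mem_Wd (F := F) N B hB m q _ ih
  | swap q q' l =>
    rw [act_cons, act_cons, act_cons, act_cons]
    have h1 : ⁅sec N q', ⁅sec N q, act N l m⁆⁆ - ⁅sec N q, ⁅sec N q', act N l m⁆⁆ =
        ⁅⁅sec N q', sec N q⁆, act N l m⁆ := by
      rw [lie_lie]
    rw [h1]
    have h2 := sub_sec_mem N ⁅sec N q', sec N q⁆
    set c := sec N (mkHom N ⁅sec N q', sec N q⁆) with hc
    have h3 : ⁅⁅sec N q', sec N q⁆, act N l m⁆ =
        ⁅⁅sec N q', sec N q⁆ - c, act N l m⁆ + ⁅c, act N l m⁆ := by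
      rw [sub_lie, sub_add_cancel]
    rw [h3]
    apply AddSubgroup.add_mem
    · exact AddSubgroup.mem_sup_right (hN _ h2 _)
    · rw [hc, ← act_cons]
      exact act_mem_Wd N B m _ (by simp)
  | trans h1 h2 ih1 ih2 =>
    rw [h1.length_eq] at ih1 ⊢
    have := AddSubgroup.add_mem _ ih1 ih2
    simpa using this

/-- Pigeonhole principle for words. -/
lemma pigeon {H : Type} [Finite H] (e : H → ℕ) : ∃ n₀ : ℕ, ∀ l : List H, n₀ ≤ l.length →
    ∃ q, ∃ l', l.Perm (List.replicate (e q) q ++ l') := by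
  classical
  cases nonempty_fintype H
  refine ⟨∑ q, e q + 1, fun l hl => ?_⟩
  by_contra hcon
  push Not at hcon
  have h1 : ∀ q, l.count q ≤ e q := by
    intro q
    by_contra hq
    push Not at hq
    have h2 : (List.replicate (e q) q).Sublist l := List.replicate_sublist_iff.2 hq.le
    obtain ⟨l', hl'⟩ := h2.exists_perm_append
    exact hcon q l' hl'
  have h2 : ∑ q, (l : Multiset H).count q = Multiset.card (l : Multiset H) :=
    Multiset.sum_count_eq_card (by simp)
  have h3 : ∑ q, (l : Multiset H).count q ≤ ∑ q, e q :=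
    Finset.sum_le_sum fun q _ => by rw [Multiset.coe_count]; exact h1 q
  rw [Multiset.coe_card] at h2
  omega

/-- If representatives act algebraically over a ring `R` commuting with the action of `L`, then a
finitely generated module is finitely generated over `R`. -/
theorem finite_of_alg [Finite (L ⧸ N)] (hN : ∀ n ∈ N, ∀ v : M, ⁅n, v⁆ = 0)
    {R : Type} [Ring R] [Module R M] (hR : ∀ (x : L) (r : R) (m : M), ⁅x, r • m⁆ = r • ⁅x, m⁆)
    (hF : ∀ (t : F) (m : M), ∃ r : R, t • m = r • m)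
    (halg : ∀ q : L ⧸ N, ∃ e : ℕ, ∀ m : M, ((LieModule.toEnd F L M (sec N q)) ^ e) m ∈
      Submodule.span R {v | ∃ i < e, ((LieModule.toEnd F L M (sec N q)) ^ i) m = v})
    (S : Set M) (hS : S.Finite) (hgen : LieSubmodule.lieSpan F L S = ⊤) :
    Module.Finite R M := by
  choose e he using halg
  obtain ⟨n₀, hn₀⟩ := pigeon e
  let T : Set M := {v | ∃ l : List (L ⧸ N), l.length < n₀ ∧ ∃ s ∈ S, act N l s = v}
  have hT : T.Finite := by
    have h1 : {l : List (L ⧸ N) | l.length < n₀}.Finite := List.finite_length_lt _ _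
    have h2 : T = Set.image2 (fun l s => act N l s) {l : List (L ⧸ N) | l.length < n₀} S := by
      ext v
      constructor
      · rintro ⟨l, hl, s, hs, rfl⟩
        exact ⟨l, hl, s, hs, rfl⟩
      · rintro ⟨l, hl, s, hs, rfl⟩
        exact ⟨l, hl, s, hs, rfl⟩
    rw [h2]
    exact h1.image2 _ hS
  have hN' : ∀ n ∈ N, ∀ v : M, ⁅n, v⁆ ∈ (⊥ : AddSubgroup M) := by
    intro n hn v
    rw [hN n hn v]
    exact AddSubgroup.zero_mem _
  have hB : ∀ y : L, ∀ b ∈ (⊥ : AddSubgroup M), ⁅y, b⁆ ∈ (⊥ : AddSubgroup M) := by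
    intro y b hb
    rw [AddSubgroup.mem_bot] at hb ⊢
    rw [hb, lie_zero]
  have key : ∀ n : ℕ, ∀ l : List (L ⧸ N), l.length = n → ∀ s ∈ S,
      act N l s ∈ Submodule.span R T := by
    intro n
    induction n using Nat.strong_induction_on with
    | _ n ih =>
      intro l hl s hs
      rcases Nat.lt_or_ge l.length n₀ with h | h
      · exact Submodule.subset_span ⟨l, h, s, hs, rfl⟩
      · obtain ⟨q, l', hp⟩ := hn₀ l h
        have h1 := act_perm (F := F) N ⊥ hB hN' s hp
        have h2 : Wd N ⊥ s l.length ≤ (Submodule.span R T).toAddSubgroup := by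
          apply sup_le _ bot_le
          rw [AddSubgroup.closure_le]
          rintro v ⟨l₁, hl₁, rfl⟩
          exact ih l₁.length (by omega) l₁ rfl s hs
        have h3 : act N l s - act N (List.replicate (e q) q ++ l') s ∈ Submodule.span R T :=
          h2 h1
        have h4 : act N (List.replicate (e q) q ++ l') s ∈ Submodule.span R T := by
          rw [act_append, act_replicate F]
          refine Submodule.span_le.2 ?_ (he q (act N l' s))
          rintro v ⟨i, hi, rfl⟩
          rw [← act_replicate F, ← act_append]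
          refine ih _ ?_ (List.replicate i q ++ l') rfl s hs
          have := hp.length_eq
          simp only [List.length_append, List.length_replicate] at this ⊢
          omega
        have := Submodule.add_mem _ h3 h4
        simpa using this
  have hall : ∀ (l : List (L ⧸ N)), ∀ s ∈ S, act N l s ∈ Submodule.span R T :=
    fun l s hs => key _ l rfl s hs
  -- the Lie submodule
  let T' : Set M := {v | ∃ l : List (L ⧸ N), ∃ s ∈ S, act N l s = v}
  have hTT' : Submodule.span R T' ≤ Submodule.span R T := by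
    rw [Submodule.span_le]
    rintro v ⟨l, s, hs, rfl⟩
    exact hall l s hs
  have hlie : ∀ (x : L) (v : M), v ∈ Submodule.span R T' → ⁅x, v⁆ ∈ Submodule.span R T' := by
    intro x v hv
    have hx : ∀ w : M, ⁅x, w⁆ = ⁅sec N (mkHom N x), w⁆ := by
      intro w
      have := hN _ (sub_sec_mem N x) w
      rw [sub_lie, sub_eq_zero] at this
      exact this
    induction hv using Submodule.span_induction with
    | mem v hv =>
      obtain ⟨l, s, hs, rfl⟩ := hv
      rw [hx, ← act_cons]
      exact Submodule.subset_span ⟨_, s, hs, rfl⟩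
    | zero => rw [lie_zero]; exact Submodule.zero_mem _
    | add a b _ _ ha hb => rw [lie_add]; exact Submodule.add_mem _ ha hb
    | smul r a _ ha => rw [hR]; exact Submodule.smul_mem _ _ ha
  let U : LieSubmodule F L M :=
    { carrier := {v | v ∈ Submodule.span R T'}
      zero_mem' := (Submodule.span R T').zero_mem
      add_mem' := fun ha hb => (Submodule.span R T').add_mem ha hb
      smul_mem' := by
        intro t m hm
        obtain ⟨r, hr⟩ := hF t m
        change t • m ∈ Submodule.span R T'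
        rw [hr]
        exact Submodule.smul_mem _ _ hm
      lie_mem := fun {x m} hm => hlie x m hm }
  have hU : (⊤ : LieSubmodule F L M) ≤ U := by
    rw [← hgen, LieSubmodule.lieSpan_le]
    intro s hs
    exact Submodule.subset_span ⟨[], s, hs, rfl⟩
  refine ⟨⟨hT.toFinset, ?_⟩⟩
  rw [Set.Finite.coe_toFinset, eq_top_iff]
  intro v _
  exact hTT' (hU (LieSubmodule.mem_top v))

end words

end Pool.Agent.Lib.MP_8f946f_al
end

section
/-!
Finitely generated modules over a finite Lie algebra in positive characteristic.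
-/
namespace Pool.Agent.Lib.MP_8f946f_al

section center

attribute [local instance 100] LieRing.ofAssociativeRing

variable {F : Type} [Field F]

lemma ad_pow_prime_pow {p : ℕ} [hp : Fact p.Prime] [CharP F p] {A : Type} [Ring A] [Algebra F A]
    (a b : A) (j : ℕ) :
    ((LieAlgebra.ad F A a) ^ (p ^ j)) b = a ^ (p ^ j) * b - b * a ^ (p ^ j) := by
  rcases subsingleton_or_nontrivial A with h | h
  · exact Subsingleton.elim _ _
  · have hc : CharP (Module.End F A) p := charP_of_injective_algebraMap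
      (algebraMap F (Module.End F A)).injective p
    have h1 : LieAlgebra.ad F A a = LinearMap.mulLeft F a - LinearMap.mulRight F a := by
      ext b
      simp [LieAlgebra.ad_apply, Ring.lie_def]
    have h2 : Commute (LinearMap.mulLeft F a) (LinearMap.mulRight F a) :=
      LinearMap.commute_mulLeft_right a a
    rw [h1, sub_pow_char_pow_of_commute _ _ h2, LinearMap.pow_mulLeft, LinearMap.pow_mulRight]
    simp

lemma hom_ad_pow {L L' : Type} [LieRing L] [LieAlgebra F L] [LieRing L'] [LieAlgebra F L']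
    (q : L →ₗ⁅F⁆ L') (x y : L) (n : ℕ) :
    q (((LieAlgebra.ad F L x) ^ n) y) = ((LieAlgebra.ad F L' (q x)) ^ n) (q y) := by
  induction n with
  | zero => simp
  | succ n ih =>
    rw [pow_succ', pow_succ', Module.End.mul_apply, Module.End.mul_apply, LieAlgebra.ad_apply,
      LieAlgebra.ad_apply, LieHom.map_lie, ih]

variable {L : Type} [LieRing L] [LieAlgebra F L] (N : LieIdeal F L)

lemma exists_pow_eq [Finite (L ⧸ N)] (p : ℕ) (y : L) :
    ∃ i j : ℕ, i < j ∧ ∀ x : L, ((LieAlgebra.ad F L y) ^ (p ^ j)) x -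
      ((LieAlgebra.ad F L y) ^ (p ^ i)) x ∈ N := by
  obtain ⟨a, b, hab, heq⟩ := Finite.exists_ne_map_eq_of_infinite
    (fun j : ℕ => (fun h : L ⧸ N => ((LieAlgebra.ad F (L ⧸ N) (mkHom N y)) ^ (p ^ j)) h))
  wlog hlt : a < b generalizing a b with H
  · exact H b a hab.symm heq.symm (lt_of_le_of_ne (not_lt.1 hlt) hab.symm)
  refine ⟨a, b, hlt, fun x => ?_⟩
  rw [← mkHom_eq_zero, map_sub, hom_ad_pow, hom_ad_pow]
  have := congrFun heq (mkHom N x)
  rw [← this, sub_self]

variable {M : Type} [AddCommGroup M] [Module F M] [LieRingModule L M] [LieModule F L M]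

open scoped IsMulCommutative in
/-- A noetherian ring commuting with the action over which representatives act algebraically. -/
theorem exists_center [Finite F] [Finite (L ⧸ N)] (hN : ∀ n ∈ N, ∀ v : M, ⁅n, v⁆ = 0) :
    ∃ φ : MvPolynomial (L ⧸ N) F →+* Module.End F M,
      (∀ (x : L) r m, ⁅x, φ r m⁆ = φ r ⁅x, m⁆) ∧
      (∀ (t : F) m, φ (MvPolynomial.C t) m = t • m) ∧
      (∀ U : LieSubmodule F L M, ∀ r, ∀ m ∈ U, φ r m ∈ U) ∧
      (∀ q : L ⧸ N, ∃ i j : ℕ, ∃ z, i < j ∧ ∀ m : M, ((LieModule.toEnd F L M (sec N q)) ^ j) m =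
        ((LieModule.toEnd F L M (sec N q)) ^ i) m + φ z m) := by
  classical
  obtain ⟨p, hpc⟩ := CharP.exists F
  have hp : Fact p.Prime := ⟨CharP.char_is_prime F p⟩
  choose i j hij hmem using fun q : L ⧸ N => exists_pow_eq N p (sec N q)
  let z : L ⧸ N → Module.End F M := fun q =>
    (LieModule.toEnd F L M (sec N q)) ^ (p ^ (j q)) -
      (LieModule.toEnd F L M (sec N q)) ^ (p ^ (i q))
  have hzρ : ∀ q (x : L), Commute (z q) (LieModule.toEnd F L M x) := by
    intro q x
    have h1 : ∀ n : ℕ, (LieModule.toEnd F L M (sec N q)) ^ (p ^ n) * LieModule.toEnd F L M x -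
        LieModule.toEnd F L M x * (LieModule.toEnd F L M (sec N q)) ^ (p ^ n) =
        LieModule.toEnd F L M (((LieAlgebra.ad F L (sec N q)) ^ (p ^ n)) x) := by
      intro n
      rw [hom_ad_pow, ad_pow_prime_pow]
    have h2 : LieModule.toEnd F L M (((LieAlgebra.ad F L (sec N q)) ^ (p ^ (j q))) x -
        ((LieAlgebra.ad F L (sec N q)) ^ (p ^ (i q))) x) = 0 := by
      ext m
      rw [LieModule.toEnd_apply_apply, hN _ (hmem q x), LinearMap.zero_apply]
    rw [map_sub, ← h1, ← h1] at h2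
    rw [Commute, SemiconjBy, ← sub_eq_zero, ← h2]
    simp only [z]
    noncomm_ring
  have hzz : ∀ q q', Commute (z q) (z q') := by
    intro q q'
    exact ((hzρ q (sec N q')).pow_right _).sub_right ((hzρ q (sec N q')).pow_right _)
  let S : Set (Module.End F M) := Set.range z
  have hcomm : ∀ a ∈ S, ∀ b ∈ S, a * b = b * a := by
    rintro _ ⟨q, rfl⟩ _ ⟨q', rfl⟩
    exact hzz q q'
  have hS := Algebra.isMulCommutative_adjoin F hcomm
  let φ₀ : MvPolynomial (L ⧸ N) F →ₐ[F] Algebra.adjoin F S :=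
    MvPolynomial.aeval (fun q => (⟨z q, Algebra.subset_adjoin ⟨q, rfl⟩⟩ : Algebra.adjoin F S))
  let φ : MvPolynomial (L ⧸ N) F →ₐ[F] Module.End F M := (Algebra.adjoin F S).val.comp φ₀
  have hX : ∀ q, φ (MvPolynomial.X q) = z q := by
    intro q
    change ((φ₀ (MvPolynomial.X q) : Algebra.adjoin F S) : Module.End F M) = z q
    simp only [φ₀, MvPolynomial.aeval_X]
  have hC : ∀ t, φ (MvPolynomial.C t) = algebraMap F (Module.End F M) t := by
    intro t
    have : (MvPolynomial.C t : MvPolynomial (L ⧸ N) F) = algebraMap F _ t := rfl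
    rw [this, AlgHom.commutes]
  refine ⟨φ.toRingHom, ?_, ?_, ?_, ?_⟩
  · intro x r
    induction r using MvPolynomial.induction_on with
    | C t =>
      intro m
      change ⁅x, φ (MvPolynomial.C t) m⁆ = φ (MvPolynomial.C t) ⁅x, m⁆
      rw [hC, Module.algebraMap_end_apply, Module.algebraMap_end_apply, lie_smul]
    | add a b ha hb =>
      intro m
      change ⁅x, φ (a + b) m⁆ = φ (a + b) ⁅x, m⁆
      rw [map_add, LinearMap.add_apply, LinearMap.add_apply, lie_add]
      exact congrArg₂ _ (ha m) (hb m)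
    | mul_X a q ha =>
      intro m
      change ⁅x, φ (a * MvPolynomial.X q) m⁆ = φ (a * MvPolynomial.X q) ⁅x, m⁆
      rw [map_mul, Module.End.mul_apply, Module.End.mul_apply]
      have h1 := ha (φ (MvPolynomial.X q) m)
      have h2 : ⁅x, φ (MvPolynomial.X q) m⁆ = φ (MvPolynomial.X q) ⁅x, m⁆ := by
        rw [hX]
        have := congrArg (fun e => e m) (hzρ q x).eq
        simp only [Module.End.mul_apply, LieModule.toEnd_apply_apply] at this
        exact this.symm
      change ⁅x, φ a (φ (MvPolynomial.X q) m)⁆ = φ a ⁅x, φ (MvPolynomial.X q) m⁆ at h1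
      rw [h1, h2]
  · intro t m
    change φ (MvPolynomial.C t) m = t • m
    rw [hC, Module.algebraMap_end_apply]
  · intro U r
    have hpow : ∀ (n : ℕ) (y : L), ∀ m ∈ U, ((LieModule.toEnd F L M y) ^ n) m ∈ U := by
      intro n y
      induction n with
      | zero => intro m hm; simpa using hm
      | succ n ih =>
        intro m hm
        rw [pow_succ', Module.End.mul_apply, LieModule.toEnd_apply_apply]
        exact U.lie_mem (ih m hm)
    induction r using MvPolynomial.induction_on with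
    | C t =>
      intro m hm
      change φ (MvPolynomial.C t) m ∈ U
      rw [hC, Module.algebraMap_end_apply]
      exact U.smul_mem t hm
    | add a b ha hb =>
      intro m hm
      change φ (a + b) m ∈ U
      rw [map_add, LinearMap.add_apply]
      exact U.add_mem (ha m hm) (hb m hm)
    | mul_X a q ha =>
      intro m hm
      change φ (a * MvPolynomial.X q) m ∈ U
      rw [map_mul, Module.End.mul_apply, hX]
      apply ha
      simp only [z, LinearMap.sub_apply]
      exact U.sub_mem (hpow _ _ m hm) (hpow _ _ m hm)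
  · intro q
    refine ⟨p ^ (i q), p ^ (j q), MvPolynomial.X q, Nat.pow_lt_pow_right hp.out.one_lt (hij q),
      fun m => ?_⟩
    change _ = _ + φ (MvPolynomial.X q) m
    rw [hX]
    simp only [z, LinearMap.sub_apply]
    abel

/-- A finitely generated module which is annihilated by `N` is finitely generated over the
commuting ring. -/
lemma finite_over_center [Finite (L ⧸ N)] (hN : ∀ n ∈ N, ∀ v : M, ⁅n, v⁆ = 0)
    (φ : MvPolynomial (L ⧸ N) F →+* Module.End F M)
    (h1 : ∀ (x : L) r m, ⁅x, φ r m⁆ = φ r ⁅x, m⁆)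
    (h2 : ∀ (t : F) m, φ (MvPolynomial.C t) m = t • m)
    (h4 : ∀ q : L ⧸ N, ∃ i j : ℕ, ∃ z, i < j ∧ ∀ m : M,
      ((LieModule.toEnd F L M (sec N q)) ^ j) m =
        ((LieModule.toEnd F L M (sec N q)) ^ i) m + φ z m)
    (S : Set M) (hS : S.Finite) (hgen : LieSubmodule.lieSpan F L S = ⊤) :
    letI : Module (MvPolynomial (L ⧸ N) F) M := Module.compHom M φ
    Module.Finite (MvPolynomial (L ⧸ N) F) M := by
  let _ : Module (MvPolynomial (L ⧸ N) F) M := Module.compHom M φ
  refine finite_of_alg N hN (R := MvPolynomial (L ⧸ N) F) (fun x r m => h1 x r m)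
    (fun t m => ⟨MvPolynomial.C t, (h2 t m).symm⟩) ?_ S hS hgen
  intro q
  obtain ⟨i, j, z, hij, hq⟩ := h4 q
  refine ⟨j, fun m => ?_⟩
  rw [hq m]
  apply Submodule.add_mem
  · exact Submodule.subset_span ⟨i, hij, rfl⟩
  · have : φ z m = z • m := rfl
    rw [this]
    exact Submodule.smul_mem _ _ (Submodule.subset_span ⟨0, by omega, by simp⟩)

/-- Submodules of finitely generated modules are finitely generated. -/
theorem submodule_fg [Finite F] [Finite (L ⧸ N)] (hN : ∀ n ∈ N, ∀ v : M, ⁅n, v⁆ = 0)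
    (S : Set M) (hS : S.Finite) (hgen : LieSubmodule.lieSpan F L S = ⊤)
    (U : LieSubmodule F L M) : ∃ T : Set M, T.Finite ∧ T ⊆ U ∧ U ≤ LieSubmodule.lieSpan F L T := by
  obtain ⟨φ, h1, h2, h3, h4⟩ := exists_center (M := M) N hN
  let _ : Module (MvPolynomial (L ⧸ N) F) M := Module.compHom M φ
  have hfin : Module.Finite (MvPolynomial (L ⧸ N) F) M :=
    finite_over_center N hN φ h1 h2 h4 S hS hgen
  have hnoeth : IsNoetherian (MvPolynomial (L ⧸ N) F) M := isNoetherian_of_isNoetherianRing_of_finite _ _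
  let U' : Submodule (MvPolynomial (L ⧸ N) F) M :=
    { carrier := {m | m ∈ U}
      zero_mem' := U.zero_mem
      add_mem' := fun ha hb => U.add_mem ha hb
      smul_mem' := fun r m hm => h3 U r m hm }
  obtain ⟨T, hT⟩ := hnoeth.noetherian U'
  refine ⟨T, T.finite_toSet, ?_, ?_⟩
  · intro t ht
    have : t ∈ U' := by rw [← hT]; exact Submodule.subset_span ht
    exact this
  · intro u hu
    let V : Submodule (MvPolynomial (L ⧸ N) F) M :=
      { carrier := {m | m ∈ LieSubmodule.lieSpan F L (T : Set M)}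
        zero_mem' := (LieSubmodule.lieSpan F L (T : Set M)).zero_mem
        add_mem' := fun ha hb => (LieSubmodule.lieSpan F L (T : Set M)).add_mem ha hb
        smul_mem' := fun r m hm => h3 (LieSubmodule.lieSpan F L (T : Set M)) r m hm }
    have h5 : Submodule.span (MvPolynomial (L ⧸ N) F) (T : Set M) ≤ V := by
      rw [Submodule.span_le]
      intro t ht
      exact LieSubmodule.subset_lieSpan ht
    rw [hT] at h5
    exact h5 hu

/-- Monolithic finitely generated modules are finite. -/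
theorem finite_of_monolithic [Finite F] [Finite (L ⧸ N)] (hN : ∀ n ∈ N, ∀ v : M, ⁅n, v⁆ = 0)
    (S : Set M) (hS : S.Finite) (hgen : LieSubmodule.lieSpan F L S = ⊤)
    (z₀ : M) (hz₀ : z₀ ≠ 0) (hz : ∀ U : LieSubmodule F L M, U ≠ ⊥ → z₀ ∈ U) : Finite M := by
  obtain ⟨φ, h1, h2, h3, h4⟩ := exists_center (M := M) N hN
  let _ : Module (MvPolynomial (L ⧸ N) F) M := Module.compHom M φ
  have hfin : Module.Finite (MvPolynomial (L ⧸ N) F) M :=
    finite_over_center N hN φ h1 h2 h4 S hS hgen
  let 𝔞 : Ideal (MvPolynomial (L ⧸ N) F) :=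
    LinearMap.ker (LinearMap.toSpanSingleton (MvPolynomial (L ⧸ N) F) M z₀)
  have hmem𝔞 : ∀ r, r ∈ 𝔞 ↔ r • z₀ = 0 := fun r => by
    rw [LinearMap.mem_ker, LinearMap.toSpanSingleton_apply]
  have h𝔞 : 𝔞 ≠ ⊤ := by
    intro h
    have h5 : (1 : MvPolynomial (L ⧸ N) F) ∈ 𝔞 := by rw [h]; exact Submodule.mem_top
    rw [hmem𝔞, one_smul] at h5
    exact hz₀ h5
  obtain ⟨𝔪, hmax, hle⟩ := Ideal.exists_le_maximal 𝔞 h𝔞
  have h5 : z₀ ∉ (⨅ i : ℕ, 𝔪 ^ i • ⊤ : Submodule (MvPolynomial (L ⧸ N) F) M) := by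
    rw [Ideal.mem_iInf_smul_pow_eq_bot_iff]
    rintro ⟨⟨r, hr⟩, hrz⟩
    apply hmax.ne_top
    rw [Ideal.eq_top_iff_one]
    have h6 : 1 - r ∈ 𝔞 := by
      rw [hmem𝔞, sub_smul, one_smul]
      change r • z₀ = z₀ at hrz
      rw [hrz, sub_self]
    have h7 := 𝔪.add_mem (hle h6) hr
    simpa using h7
  rw [Submodule.mem_iInf] at h5
  push Not at h5
  obtain ⟨i, hi⟩ := h5
  let U : LieSubmodule F L M :=
    { carrier := {m | m ∈ (𝔪 ^ i • ⊤ : Submodule (MvPolynomial (L ⧸ N) F) M)}
      zero_mem' := (𝔪 ^ i • ⊤ : Submodule (MvPolynomial (L ⧸ N) F) M).zero_mem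
      add_mem' := fun ha hb =>
        (𝔪 ^ i • ⊤ : Submodule (MvPolynomial (L ⧸ N) F) M).add_mem ha hb
      smul_mem' := by
        intro t m hm
        change t • m ∈ (𝔪 ^ i • ⊤ : Submodule (MvPolynomial (L ⧸ N) F) M)
        rw [← h2]
        exact (𝔪 ^ i • ⊤ : Submodule (MvPolynomial (L ⧸ N) F) M).smul_mem
          (MvPolynomial.C t) hm
      lie_mem := by
        intro x m hm
        change m ∈ (𝔪 ^ i • ⊤ : Submodule (MvPolynomial (L ⧸ N) F) M) at hm
        change ⁅x, m⁆ ∈ (𝔪 ^ i • ⊤ : Submodule (MvPolynomial (L ⧸ N) F) M)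
        refine Submodule.smul_induction_on hm ?_ ?_
        · intro r hr n _
          have : ⁅x, r • n⁆ = r • ⁅x, n⁆ := h1 x r n
          rw [this]
          exact Submodule.smul_mem_smul hr Submodule.mem_top
        · intro a b ha hb
          rw [lie_add]
          exact Submodule.add_mem _ ha hb }
  have hU : U = ⊥ := by
    by_contra hU
    exact hi (hz U hU)
  have hbot : (𝔪 ^ i • ⊤ : Submodule (MvPolynomial (L ⧸ N) F) M) = ⊥ := by
    rw [eq_bot_iff]
    intro m hm
    have : m ∈ U := hm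
    rw [hU] at this
    exact this
  have hfin𝔪 : Finite (MvPolynomial (L ⧸ N) F ⧸ 𝔪) := by
    let _ := Ideal.Quotient.field 𝔪
    have : Module.Finite F (MvPolynomial (L ⧸ N) F ⧸ 𝔪) :=
      finite_of_finite_type_of_isJacobsonRing F (MvPolynomial (L ⧸ N) F ⧸ 𝔪)
    exact Module.finite_of_finite F
  have hfin2 : Finite (MvPolynomial (L ⧸ N) F ⧸ 𝔪 ^ i) :=
    Ideal.finite_quotient_pow (IsNoetherian.noetherian 𝔪) i
  have hfin3 : Finite (M ⧸ (⊤ : Submodule (MvPolynomial (L ⧸ N) F) M)) := inferInstance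
  have hfin4 : Finite (M ⧸ (𝔪 ^ i • ⊤ : Submodule (MvPolynomial (L ⧸ N) F) M)) :=
    Submodule.finite_quotient_smul (𝔪 ^ i) hfin.fg_top
  rw [hbot] at hfin4
  exact Finite.of_equiv _ (Submodule.quotEquivOfEqBot
    (⊥ : Submodule (MvPolynomial (L ⧸ N) F) M) rfl).toEquiv

/-- Finitely generated modules on which representatives act algebraically are finite. -/
theorem finite_of_periodic [Finite F] [Finite (L ⧸ N)] (hN : ∀ n ∈ N, ∀ v : M, ⁅n, v⁆ = 0)
    (S : Set M) (hS : S.Finite) (hgen : LieSubmodule.lieSpan F L S = ⊤)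
    (hper : ∀ y : L, ∃ m n : ℕ, m < n ∧ ∀ v : M, ((LieModule.toEnd F L M y) ^ n) v =
      ((LieModule.toEnd F L M y) ^ m) v) : Finite M := by
  have h1 : Module.Finite F M := by
    refine finite_of_alg N hN (R := F) (fun x r m => lie_smul r x m)
      (fun t m => ⟨t, rfl⟩) ?_ S hS hgen
    intro q
    obtain ⟨m, n, hmn, h⟩ := hper (sec N q)
    refine ⟨n, fun v => ?_⟩
    rw [h v]
    exact Submodule.subset_span ⟨m, hmn, rfl⟩
  exact Module.finite_of_finite F

end center

end Pool.Agent.Lib.MP_8f946f_al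
end

section
/-!
The key step of the necessity part: an ideal `J` of `F[s][X]` attached to a three generated
algebra all of whose ideals are closed in the profinite topology contains a monic polynomial.
-/
namespace Pool.Agent.Lib.MP_8f946f_al

open Polynomial

section core

variable {F : Type} [Field F] {P : Type} [LieRing P] [LieAlgebra F P]

/-- The data of the key step. -/
structure CoreData (F : Type) [Field F] (P : Type) [LieRing P] [LieAlgebra F P] where
  x : P
  f : P
  g : P
  gen : LieSubalgebra.lieSpan F P {x, f, g} = ⊤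
  h₁ : F[X][X]
  J : Ideal F[X][X]
  ker : ∀ h, ev x f g (h * h₁) = 0 ↔ h ∈ J
  cf : ∀ h, ⁅f, ev x f g (h * h₁)⁆ = 0
  cg : ∀ h, ⁅g, ev x f g (h * h₁)⁆ = 0

variable (D : CoreData F P)

/-- The map `h ↦ ev (h h₁)`. -/
noncomputable def CoreData.Φ : F[X][X] →+ P where
  toFun h := ev D.x D.f D.g (h * D.h₁)
  map_zero' := by rw [zero_mul, ev_zero]
  map_add' a b := by rw [add_mul, ev_add]

lemma CoreData.Φ_apply (h : F[X][X]) : D.Φ h = ev D.x D.f D.g (h * D.h₁) := rfl

lemma CoreData.Φ_C_mul (a : F[X]) (h : F[X][X]) :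
    D.Φ (C a * h) = (aeval (LieAlgebra.ad F P D.x) a) (D.Φ h) := by
  rw [Φ_apply, Φ_apply, mul_assoc, ev_C_mul]

lemma CoreData.Φ_smul (c : F) (h : F[X][X]) : D.Φ (C (C c) * h) = c • D.Φ h := by
  rw [Φ_C_mul, aeval_C, Module.algebraMap_end_apply]

lemma CoreData.Φ_ad (h : F[X][X]) : ⁅D.x, D.Φ h⁆ = D.Φ (C X * h) := by
  rw [Φ_C_mul, aeval_X, LieAlgebra.ad_apply]

lemma CoreData.Φ_eq_zero (h : F[X][X]) : D.Φ h = 0 ↔ h ∈ D.J := D.ker h

/-- Elements generated by `x, f, g` act on the image of a submodule. -/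
lemma CoreData.stable (W : Submodule F[X] F[X][X]) (y : P) (h : F[X][X]) (hh : h ∈ W) :
    ∃ h' ∈ W, ⁅y, D.Φ h⁆ = D.Φ h' := by
  have hy : y ∈ LieSubalgebra.lieSpan F P {D.x, D.f, D.g} := by
    rw [D.gen]; exact LieSubalgebra.mem_top y
  induction hy using LieSubalgebra.lieSpan_induction generalizing h with
  | mem y hy =>
    rcases hy with rfl | rfl | rfl
    · refine ⟨C X * h, ?_, D.Φ_ad h⟩
      have : C X * h = (X : F[X]) • h := by rw [Polynomial.smul_eq_C_mul]
      rw [this]
      exact W.smul_mem _ hh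
    · exact ⟨0, W.zero_mem, by rw [map_zero]; exact D.cf h⟩
    · exact ⟨0, W.zero_mem, by rw [map_zero]; exact D.cg h⟩
  | zero => exact ⟨0, W.zero_mem, by rw [map_zero, zero_lie]⟩
  | add y z _ _ hy hz =>
    obtain ⟨h1, m1, e1⟩ := hy h hh
    obtain ⟨h2, m2, e2⟩ := hz h hh
    exact ⟨h1 + h2, W.add_mem m1 m2, by rw [add_lie, e1, e2, map_add]⟩
  | smul c y _ hy =>
    obtain ⟨h1, m1, e1⟩ := hy h hh
    refine ⟨C (C c) * h1, ?_, by rw [smul_lie, e1, D.Φ_smul]⟩
    have : C (C c) * h1 = (C c : F[X]) • h1 := by rw [Polynomial.smul_eq_C_mul]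
    rw [this]
    exact W.smul_mem _ m1
  | lie y z _ _ hy hz =>
    obtain ⟨h1, m1, e1⟩ := hz h hh
    obtain ⟨h2, m2, e2⟩ := hy h1 m1
    obtain ⟨h3, m3, e3⟩ := hy h hh
    obtain ⟨h4, m4, e4⟩ := hz h3 m3
    exact ⟨h2 - h4, W.sub_mem m2 m4, by rw [lie_lie, e1, e2, e3, e4, map_sub]⟩

/-- The ideal of `P` attached to an `F[s]`-submodule of `F[s][X]`. -/
noncomputable def CoreData.idealOf (W : Submodule F[X] F[X][X]) : LieIdeal F P where
  carrier := {y | ∃ h ∈ W, D.Φ h = y}
  zero_mem' := ⟨0, W.zero_mem, map_zero _⟩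
  add_mem' := by
    rintro _ _ ⟨a, ha, rfl⟩ ⟨b, hb, rfl⟩
    exact ⟨a + b, W.add_mem ha hb, map_add _ _ _⟩
  smul_mem' := by
    rintro c _ ⟨a, ha, rfl⟩
    refine ⟨C (C c) * a, ?_, D.Φ_smul c a⟩
    have : C (C c) * a = (C c : F[X]) • a := by rw [Polynomial.smul_eq_C_mul]
    rw [this]
    exact W.smul_mem _ ha
  lie_mem := by
    rintro y _ ⟨a, ha, rfl⟩
    obtain ⟨b, hb, e⟩ := D.stable W y a ha
    exact ⟨b, hb, e.symm⟩

lemma CoreData.mem_idealOf (W : Submodule F[X] F[X][X]) (y : P) :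
    y ∈ D.idealOf W ↔ ∃ h ∈ W, D.Φ h = y := Iff.rfl

lemma CoreData.Φ_mem_idealOf (W : Submodule F[X] F[X][X]) (hW : ∀ h ∈ D.J, h ∈ W)
    (h : F[X][X]) : D.Φ h ∈ D.idealOf W ↔ h ∈ W := by
  rw [mem_idealOf]
  constructor
  · rintro ⟨h', hh', e⟩
    have : h' - h ∈ D.J := by rw [← D.Φ_eq_zero, map_sub, e, sub_self]
    have h2 := W.sub_mem hh' (hW _ this)
    simpa using h2
  · intro hh
    exact ⟨h, hh, rfl⟩

/-- The `F[s]`-submodule of `F[s][X]` attached to an ideal of `P`. -/
noncomputable def CoreData.subOf (I : LieIdeal F P) : Submodule F[X] F[X][X] where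
  carrier := {h | D.Φ h ∈ I}
  zero_mem' := by
    change D.Φ 0 ∈ I
    rw [map_zero]; exact I.zero_mem
  add_mem' := by
    intro a b ha hb
    change D.Φ (a + b) ∈ I
    rw [map_add]; exact I.add_mem ha hb
  smul_mem' := by
    intro c a ha
    change D.Φ (c • a) ∈ I
    rw [Polynomial.smul_eq_C_mul, D.Φ_C_mul]
    exact aeval_ad_mem I _ _ ha c

lemma CoreData.mem_subOf (I : LieIdeal F P) (h : F[X][X]) : h ∈ D.subOf I ↔ D.Φ h ∈ I := Iff.rfl

/-- All ideals of `P` are intersections of ideals of finite index. -/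
def Sep (F : Type) [Field F] (P : Type) [LieRing P] [LieAlgebra F P] : Prop :=
  ∀ (I₀ : LieIdeal F P) (u : P), u ∉ I₀ → ∃ I : LieIdeal F P, I₀ ≤ I ∧ Finite (P ⧸ I) ∧ u ∉ I

lemma CoreData.exists_sub (hS : Sep F P) (W : Submodule F[X] F[X][X]) (hW : ∀ h ∈ D.J, h ∈ W)
    (u : F[X][X]) (hu : u ∉ W) :
    ∃ I : LieIdeal F P, Finite (P ⧸ I) ∧ W ≤ D.subOf I ∧ u ∉ D.subOf I := by
  obtain ⟨I, h1, h2, h3⟩ := hS (D.idealOf W) (D.Φ u)
    (by rw [D.Φ_mem_idealOf W hW]; exact hu)
  refine ⟨I, h2, ?_, h3⟩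
  intro w hw
  exact h1 ((D.Φ_mem_idealOf W hW w).2 hw)

/-- Periodicity modulo an ideal of finite index. -/
lemma CoreData.periodic (I : LieIdeal F P) [Finite (P ⧸ I)] :
    ∃ m n : ℕ, 1 ≤ n ∧ ∀ q : F[X][X], q * (X ^ (m + n) - X ^ m) ∈ D.subOf I := by
  obtain ⟨a, b, hab, heq⟩ := Finite.exists_ne_map_eq_of_infinite
    (fun j : ℕ => mkHom I (((LieAlgebra.ad F P D.x) ^ j) D.f))
  wlog hlt : a < b generalizing a b with H
  · exact H b a hab.symm heq.symm (lt_of_le_of_ne (not_lt.1 hlt) hab.symm)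
  refine ⟨a, b - a, by omega, fun q => ?_⟩
  have hb : a + (b - a) = b := by omega
  rw [hb, D.mem_subOf, D.Φ_apply]
  have hmem : ((LieAlgebra.ad F P D.x) ^ b) D.f - ((LieAlgebra.ad F P D.x) ^ a) D.f ∈ I := by
    rw [← mkHom_eq_zero, map_sub, ← heq, sub_self]
  have : q * (X ^ b - X ^ a) * D.h₁ = X ^ b * (q * D.h₁) - X ^ a * (q * D.h₁) := by ring
  rw [this, ev_sub, ev_X_pow_mul, ev_X_pow_mul, ← ev_sub_left]
  exact ev_mem I _ _ _ hmem _

end core

end Pool.Agent.Lib.MP_8f946f_al
end

section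
/-!
The key step, continued: existence of a monic polynomial.
-/
namespace Pool.Agent.Lib.MP_8f946f_al

open Polynomial

section sparse

/-- the sparse set of exponents -/
def sparse (j : ℕ) : Prop := j = 0 ∨ ∃ t : ℕ, j = 2 ^ t

lemma sparse_gap (m n : ℕ) (hn : 1 ≤ n) : ∃ j : ℕ, sparse (j + m + n) ∧ ¬ sparse (j + m) := by
  have h1 : m + n + 1 < 2 ^ (m + n + 1) := Nat.lt_two_pow_self
  have h3 : n < 2 ^ (m + n + 1) := by omega
  have h4 : (2 : ℕ) ^ (m + n + 2) = 2 * 2 ^ (m + n + 1) := by rw [pow_succ]; ring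
  refine ⟨2 ^ (m + n + 2) - m - n, ?_, ?_⟩
  · right
    exact ⟨m + n + 2, by omega⟩
  · rintro (h | ⟨t, ht⟩)
    · omega
    · have h5 : 2 ^ (m + n + 2) - n = 2 ^ t := by omega
      have h6 : 2 ^ (m + n + 1) < 2 ^ t := by omega
      have h7 : 2 ^ t < 2 ^ (m + n + 2) := by omega
      have h8 := (Nat.pow_lt_pow_iff_right (by norm_num : 1 < 2)).1 h6
      have h9 := (Nat.pow_lt_pow_iff_right (by norm_num : 1 < 2)).1 h7
      omega

end sparse

section core

variable {F : Type} [Field F] {P : Type} [LieRing P] [LieAlgebra F P]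

variable (D : CoreData F P)

open Classical in
/-- The functional used to separate. -/
noncomputable def func (μ : F[X]) : F[X][X] →ₗ[F[X]] (F[X] ⧸ Ideal.span {μ}) :=
  Polynomial.lsum fun j => (if sparse j then (1 : F[X]) else 0) •
    ((Ideal.Quotient.mkₐ F[X] (Ideal.span {μ})).toLinearMap)

open Classical in
lemma func_monomial (μ : F[X]) (j : ℕ) (a : F[X]) : func μ (monomial j a) =
    (if sparse j then (1 : F[X]) else 0) • (Ideal.Quotient.mk (Ideal.span {μ}) a) := by
  unfold func
  rw [Polynomial.lsum_apply, Polynomial.sum_monomial_index]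
  · rfl
  · simp

lemma smul_mk (I : Ideal F[X]) (a b : F[X]) :
    a • (Ideal.Quotient.mk I b) = Ideal.Quotient.mk I (a * b) := rfl

lemma smul_eq_mk_mul (I : Ideal F[X]) (a : F[X]) (y : F[X] ⧸ I) :
    a • y = Ideal.Quotient.mk I a * y := by
  obtain ⟨b, rfl⟩ := Ideal.Quotient.mk_surjective y
  rw [smul_mk, map_mul]

lemma func_C_mul (μ : F[X]) (q : F[X][X]) : func μ (C μ * q) = 0 := by
  have : C μ * q = μ • q := by rw [Polynomial.smul_eq_C_mul]
  rw [this, map_smul]
  obtain ⟨b, hb⟩ := Ideal.Quotient.mk_surjective (func μ q)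
  rw [← hb, smul_mk, Ideal.Quotient.eq_zero_iff_mem]
  exact Ideal.mul_mem_right _ _ (Ideal.mem_span_singleton_self μ)

/-- Part (A): modulo every prime `μ` the ideal `J` is non-zero. -/
lemma CoreData.partA (hS : Sep F P) (μ : F[X]) (hμ : Prime μ) :
    ∃ h ∈ D.J, ¬ C μ ∣ h := by
  by_contra hcon
  push Not at hcon
  let W : Submodule F[X] F[X][X] := LinearMap.ker (func μ)
  have hW : ∀ h ∈ D.J, h ∈ W := by
    intro h hh
    obtain ⟨q, rfl⟩ := hcon h hh
    exact func_C_mul μ q
  have hmax : (Ideal.span {μ}).IsMaximal :=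
    PrincipalIdealRing.isMaximal_of_irreducible hμ.irreducible
  have hnt : Nontrivial (F[X] ⧸ Ideal.span {μ}) := Ideal.Quotient.nontrivial_iff.2 hmax.ne_top
  have h1 : func μ 1 = 1 := by
    have : (1 : F[X][X]) = monomial 0 1 := by simp
    have h0 : sparse 0 := Or.inl rfl
    rw [this, func_monomial, if_pos h0, one_smul, map_one]
  have hu : (1 : F[X][X]) ∉ W := by
    intro h
    have : func μ 1 = 0 := h
    rw [h1] at this
    exact one_ne_zero this
  obtain ⟨I, hI, hWI, huI⟩ := D.exists_sub hS W hW 1 hu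
  have hWI' : D.subOf I ≤ W := by
    intro q hq
    by_contra hqW
    have hne : func μ q ≠ 0 := hqW
    -- invert
    let _ := Ideal.Quotient.field (Ideal.span {μ})
    obtain ⟨b, hb⟩ := Ideal.Quotient.mk_surjective (func μ q)⁻¹
    have hb1 : func μ (b • q) = 1 := by
      rw [map_smul, smul_eq_mk_mul, hb, inv_mul_cancel₀ hne]
    have h2 : b • q - 1 ∈ W := by
      change func μ (b • q - 1) = 0
      rw [map_sub, hb1, h1, sub_self]
    have h3 : b • q ∈ D.subOf I := Submodule.smul_mem _ _ hq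
    apply huI
    have := (D.subOf I).sub_mem h3 (hWI h2)
    simpa using this
  obtain ⟨m, n, hn, hper⟩ := D.periodic I
  obtain ⟨j, hj1, hj2⟩ := sparse_gap m n hn
  have h4 : func μ (X ^ j * (X ^ (m + n) - X ^ m)) = 0 := hWI' (hper (X ^ j))
  have h5 : (X : F[X][X]) ^ j * (X ^ (m + n) - X ^ m) =
      monomial (j + m + n) 1 - monomial (j + m) 1 := by
    rw [mul_sub, ← pow_add, ← pow_add, ← add_assoc, X_pow_eq_monomial, X_pow_eq_monomial]
  rw [h5, map_sub, func_monomial, func_monomial, if_pos hj1, if_neg hj2] at h4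
  simp at h4

/-- From an element of `J` not divisible by the prime `μ`, a monic polynomial in `J + (μ)`. -/
lemma exists_monic_mod (J : Ideal F[X][X]) (μ : F[X]) (hμ : Prime μ) (h : F[X][X]) (hJ : h ∈ J)
    (hd : ¬ C μ ∣ h) : ∃ m₀ : F[X][X], m₀.Monic ∧ ∃ j ∈ J, ∃ w, m₀ = j + C μ * w := by
  have hmax : (Ideal.span {μ}).IsMaximal :=
    PrincipalIdealRing.isMaximal_of_irreducible hμ.irreducible
  let _ := Ideal.Quotient.field (Ideal.span {μ})
  let π : F[X] →+* F[X] ⧸ Ideal.span {μ} := Ideal.Quotient.mk (Ideal.span {μ})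
  have hker : ∀ p : F[X][X], p.map π = 0 → C μ ∣ p := by
    intro p hp
    rw [C_dvd_iff_dvd_coeff]
    intro i
    have : π (p.coeff i) = 0 := by rw [← coeff_map, hp, coeff_zero]
    rw [Ideal.Quotient.eq_zero_iff_mem, Ideal.mem_span_singleton] at this
    exact this
  have hne : h.map π ≠ 0 := fun h0 => hd (hker h h0)
  obtain ⟨b, hb⟩ := Ideal.Quotient.mk_surjective (h.map π).leadingCoeff⁻¹
  have hmon : ((C b * h).map π).Monic := by
    rw [Polynomial.map_mul, map_C]
    change (C (Ideal.Quotient.mk (Ideal.span {μ}) b) * h.map π).Monic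
    rw [hb]
    rw [mul_comm]
    exact monic_mul_leadingCoeff_inv hne
  obtain ⟨m₀, hm1, -, hm3⟩ := lifts_and_natDegree_eq_and_monic (f := π)
    (p := (C b * h).map π) ((Polynomial.mem_lifts _).2 ⟨_, rfl⟩) hmon
  refine ⟨m₀, hm3, C b * h, J.mul_mem_left _ hJ, ?_⟩
  obtain ⟨w, hw⟩ := hker (m₀ - C b * h) (by rw [Polynomial.map_sub, hm1, sub_self])
  exact ⟨w, by rw [← hw]; ring⟩

/-- Part (B): `F[s][X] = (polynomials of small degree) + a F[s][X] + J` for every non-zero `a`. -/
lemma CoreData.partB (hS : Sep F P) (a : F[X]) (ha : a ≠ 0) :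
    ∃ N : ℕ, ∀ n ≥ N, ∀ q : F[X][X], ∃ r ∈ degreeLT F[X] n, ∃ w : F[X][X], ∃ j ∈ D.J,
      q = r + C a * w + j := by
  induction a using UniqueFactorizationMonoid.induction_on_prime with
  | h₁ => exact absurd rfl ha
  | h₂ u hu =>
    refine ⟨0, fun n _ q => ⟨0, Submodule.zero_mem _, ?_⟩⟩
    obtain ⟨v, rfl⟩ := hu
    refine ⟨C ((v⁻¹ : (F[X])ˣ) : F[X]) * q, 0, D.J.zero_mem, ?_⟩
    rw [← mul_assoc, ← C_mul, Units.mul_inv, C_1]
    ring
  | h₃ a' p ha' hp ih =>
    obtain ⟨N₁, h1⟩ := ih ha'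
    obtain ⟨h, hJ, hd⟩ := D.partA hS p hp
    obtain ⟨m₀, hm, j₀, hj₀, w₀, hw₀⟩ := exists_monic_mod D.J p hp h hJ hd
    refine ⟨max N₁ m₀.natDegree, fun n hn q => ?_⟩
    obtain ⟨r, hr, w, j, hj, hq⟩ := h1 n (le_trans (le_max_left _ _) hn) q
    -- divide w by m₀
    have hdiv := Polynomial.modByMonic_add_div w m₀
    have hr' : w %ₘ m₀ ∈ degreeLT F[X] n := by
      rw [mem_degreeLT]
      refine lt_of_lt_of_le (degree_modByMonic_lt w hm) ?_
      rw [degree_eq_natDegree hm.ne_zero]
      exact_mod_cast le_trans (le_max_right _ _) hn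
    refine ⟨r + C a' * (w %ₘ m₀), ?_, w₀ * (w /ₘ m₀), j + C a' * (j₀ * (w /ₘ m₀)), ?_, ?_⟩
    · apply Submodule.add_mem _ hr
      rw [← Polynomial.smul_eq_C_mul]
      exact Submodule.smul_mem _ _ hr'
    · exact D.J.add_mem hj (D.J.mul_mem_left _ (D.J.mul_mem_right _ hj₀))
    · rw [hq]
      conv_lhs => rw [← hdiv]
      rw [hw₀, C_mul]
      ring

/-- The conclusion of the key step. -/
theorem CoreData.exists_monic (hS : Sep F P) : ∃ h ∈ D.J, h.Monic := by
  obtain ⟨h₀, hJ₀, hd₀⟩ := D.partA hS X Polynomial.prime_X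
  have hne : h₀ ≠ 0 := by
    rintro rfl
    exact hd₀ (dvd_zero _)
  set a := h₀.leadingCoeff with ha
  set d := h₀.natDegree with hd
  have hane : a ≠ 0 := leadingCoeff_ne_zero.2 hne
  obtain ⟨N, hN⟩ := D.partB hS a hane
  set n := max N d with hn
  let W : Submodule F[X] F[X][X] := degreeLT F[X] n ⊔ D.J.restrictScalars F[X]
  have hWJ : ∀ h ∈ D.J, h ∈ W := fun h hh => Submodule.mem_sup_right hh
  have hWd : degreeLT F[X] n ≤ W := le_sup_left
  -- local nilpotency
  have hnil : ∀ m : ℕ, ∀ q ∈ degreeLT F[X] m, ∃ e : ℕ, (a ^ e) • q ∈ W := by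
    intro m
    induction m with
    | zero =>
      intro q hq
      refine ⟨0, ?_⟩
      rw [pow_zero, one_smul]
      exact hWd (degreeLT_mono (Nat.zero_le n) hq)
    | succ m ih =>
      intro q hq
      rcases Nat.lt_or_ge m n with hmn | hmn
      · refine ⟨0, ?_⟩
        rw [pow_zero, one_smul]
        exact hWd (degreeLT_mono (by omega) hq)
      · -- q = c X^m + q'
        have hdm : d ≤ m := le_trans (le_max_right _ _) hmn
        -- `a X^m` is congruent to something of degree less than `m`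
        have hlow : C a * X ^ m - X ^ (m - d) * h₀ ∈ degreeLT F[X] m := by
          have hdeg : (X ^ (m - d) * h₀ : F[X][X]).natDegree = m := by
            rw [natDegree_X_pow_mul (m - d) hne]
            omega
          rw [mem_degreeLT]
          have hlc : (X ^ (m - d) * h₀ : F[X][X]).leadingCoeff = a := by
            rw [leadingCoeff_mul, leadingCoeff_X_pow, one_mul]
          have hne2 : (X ^ (m - d) * h₀ : F[X][X]) ≠ 0 := by
            intro h0
            rw [h0, leadingCoeff_zero] at hlc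
            exact hane hlc.symm
          have hdegC : (C a * X ^ m : F[X][X]).degree = m := degree_C_mul_X_pow m hane
          have hlt := degree_sub_lt (p := (C a * X ^ m : F[X][X])) (q := X ^ (m - d) * h₀)
            (by rw [hdegC, degree_eq_natDegree hne2, hdeg])
            (by
              intro h0
              rw [h0, degree_zero] at hdegC
              exact absurd hdegC (by simp))
            (by rw [hlc, leadingCoeff_C_mul_X_pow])
          rwa [hdegC] at hlt
        have hc : q - C (q.coeff m) * X ^ m ∈ degreeLT F[X] m := by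
          rw [mem_degreeLT] at hq ⊢
          rw [degree_lt_iff_coeff_zero]
          intro k hk
          rw [coeff_sub, coeff_C_mul_X_pow]
          rcases Nat.lt_or_ge m k with hk' | hk'
          · rw [if_neg (by omega), sub_zero]
            apply coeff_eq_zero_of_degree_lt
            refine lt_of_lt_of_le hq ?_
            exact_mod_cast hk'
          · have : k = m := le_antisymm hk' hk
            rw [this, if_pos rfl, sub_self]
        obtain ⟨e1, h1⟩ := ih _ hc
        obtain ⟨e2, h2⟩ := ih _ hlow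
        -- a^{e2} (a X^m) ∈ W
        have h3 : (a ^ (e2 + 1)) • (X ^ m : F[X][X]) ∈ W := by
          have h4 : (a ^ e2) • (X ^ (m - d) * h₀) ∈ W :=
            Submodule.smul_mem _ _ (hWJ _ (D.J.mul_mem_left _ hJ₀))
          have h5 := W.add_mem h2 h4
          rw [← smul_add, sub_add_cancel, ← Polynomial.smul_eq_C_mul, smul_smul, ← pow_succ] at h5
          exact h5
        refine ⟨e1 + (e2 + 1), ?_⟩
        have h6 : q = (q - C (q.coeff m) * X ^ m) + (q.coeff m) • (X ^ m : F[X][X]) := by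
          rw [Polynomial.smul_eq_C_mul]
          ring
        rw [h6, smul_add]
        apply W.add_mem
        · rw [add_comm, pow_add, mul_smul]
          exact W.smul_mem _ h1
        · rw [pow_add, mul_smul, smul_comm (a ^ (e2 + 1)) (q.coeff m)]
          exact W.smul_mem _ (W.smul_mem _ h3)
  -- W is everything
  have hWtop : ∀ u : F[X][X], u ∈ W := by
    intro u
    by_contra hu
    obtain ⟨I, hI, hWI, huI⟩ := D.exists_sub hS W hWJ u hu
    -- the finite quotient
    let K := F[X][X] ⧸ D.subOf I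
    have hKfin : Finite K := by
      let ψ : K → P ⧸ I := fun k => mkHom I (D.Φ (Quotient.out k))
      apply Finite.of_injective ψ
      intro k₁ k₂ hk
      have h1 : D.Φ (Quotient.out k₁) - D.Φ (Quotient.out k₂) ∈ I := by
        rw [← mkHom_eq_zero, map_sub]
        exact sub_eq_zero.2 hk
      rw [← map_sub] at h1
      have h2 : Submodule.Quotient.mk (p := D.subOf I) (Quotient.out k₁) =
          Submodule.Quotient.mk (Quotient.out k₂) := by
        rw [Submodule.Quotient.eq]
        exact h1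
      have e1 : Submodule.Quotient.mk (p := D.subOf I) (Quotient.out k₁) = k₁ := Quotient.out_eq k₁
      have e2 : Submodule.Quotient.mk (p := D.subOf I) (Quotient.out k₂) = k₂ := Quotient.out_eq k₂
      rw [← e1, ← e2, h2]
    let mulA : K → K := fun k => a • k
    have hsurj : Function.Surjective mulA := by
      intro k
      obtain ⟨q, rfl⟩ := Submodule.Quotient.mk_surjective _ k
      obtain ⟨r, hr, w, j, hj, hq⟩ := hN n (le_max_left _ _) q
      refine ⟨Submodule.Quotient.mk w, ?_⟩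
      change a • (Submodule.Quotient.mk w : K) = Submodule.Quotient.mk q
      rw [← Submodule.Quotient.mk_smul, Submodule.Quotient.eq]
      apply hWI
      have : a • w - q = -(r + j) := by
        rw [hq, Polynomial.smul_eq_C_mul]
        ring
      rw [this]
      exact W.neg_mem (W.add_mem (hWd hr) (hWJ j hj))
    have hinj : Function.Injective mulA := Finite.injective_iff_surjective.2 hsurj
    have hinj' : ∀ e : ℕ, ∀ k : K, (a ^ e) • k = 0 → k = 0 := by
      intro e
      induction e with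
      | zero => intro k hk; simpa using hk
      | succ e ih =>
        intro k hk
        apply ih
        apply hinj
        change a • (a ^ e • k) = a • (0 : K)
        rw [smul_smul, ← pow_succ', hk, smul_zero]
    obtain ⟨e, he⟩ := hnil (u.natDegree + 1) u (by
      rw [mem_degreeLT]
      exact lt_of_le_of_lt degree_le_natDegree (by exact_mod_cast Nat.lt_succ_self _))
    apply huI
    have h1 : (Submodule.Quotient.mk u : K) = 0 := by
      apply hinj' e
      rw [← Submodule.Quotient.mk_smul, Submodule.Quotient.mk_eq_zero]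
      exact hWI he
    rwa [Submodule.Quotient.mk_eq_zero] at h1
  obtain ⟨r, hr, j, hj, hsum⟩ := Submodule.mem_sup.1 (hWtop (X ^ n))
  refine ⟨j, hj, ?_⟩
  have : j = X ^ n - r := by rw [← hsum]; ring
  rw [this]
  apply monic_X_pow_sub
  rw [mem_degreeLT] at hr
  exact hr

end core

end Pool.Agent.Lib.MP_8f946f_al
end

section
/-!
Necessity: in a locally residually finite variety a monic identity holds.
-/
namespace Pool.Agent.Lib.MP_8f946f_al

open Polynomial

section necessity

variable {F : Type} [Field F]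

lemma gam_mono_zero {L : Type} [LieRing L] [LieAlgebra F L] (N : LieIdeal F L) (i : ℕ) :
    gam N (i + 1) ≤ gam N i := by
  change ⁅N, gam N i⁆ ≤ gam N i
  exact LieSubmodule.lie_le_right _ _

lemma gam_le {L : Type} [LieRing L] [LieAlgebra F L] (N : LieIdeal F L) (i : ℕ) :
    gam N i ≤ N := by
  induction i with
  | zero => exact le_rfl
  | succ i ih => exact le_trans (gam_mono_zero N i) ih

lemma gam_antitone {L : Type} [LieRing L] [LieAlgebra F L] (N : LieIdeal F L) :
    Antitone (gam N) := antitone_nat_of_succ_le (gam_mono_zero N)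

/-- The ideal of polynomials `h` such that `ev x f g h` is always in `[A + B, [A, B]]`. -/
def idJ (Γ : Set (FreeLieAlgebra F ℕ)) : Ideal F[X][X] where
  carrier := {h | ∀ (L : Type) [LieRing L] [LieAlgebra F L], Satisfies Γ L →
    ∀ (A B : LieIdeal F L) (x f g : L), f ∈ A → g ∈ B → ev x f g h ∈ third A B}
  zero_mem' := by
    intro L _ _ _ A B x f g _ _
    rw [ev_zero]
    exact (third A B).zero_mem
  add_mem' := by
    intro a b ha hb L _ _ hL A B x f g hf hg
    rw [ev_add]
    exact (third A B).add_mem (ha L hL A B x f g hf hg) (hb L hL A B x f g hf hg)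
  smul_mem' := by
    intro r a ha L _ _ hL A B x f g hf hg
    rw [smul_eq_mul]
    induction r using Polynomial.induction_on' with
    | add p q hp hq => rw [add_mul, ev_add]; exact (third A B).add_mem hp hq
    | monomial n b =>
      rw [← C_mul_X_pow_eq_monomial, mul_assoc, ev_C_mul, ev_X_pow_mul]
      apply aeval_ad_mem
      exact ha L hL A B x _ g (ad_pow_mem _ x f hf n) hg

lemma mem_idJ (Γ : Set (FreeLieAlgebra F ℕ)) (h : F[X][X]) :
    h ∈ idJ Γ ↔ ∀ (L : Type) [LieRing L] [LieAlgebra F L], Satisfies Γ L →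
    ∀ (A B : LieIdeal F L) (x f g : L), f ∈ A → g ∈ B → ev x f g h ∈ third A B := Iff.rfl

lemma ev_mem_lie {L : Type} [LieRing L] [LieAlgebra F L] (A B : LieIdeal F L) (x f g : L)
    (hf : f ∈ A) (hg : g ∈ B) (h : F[X][X]) : ev x f g h ∈ (⁅A, B⁆ : LieIdeal F L) := by
  induction h using Polynomial.induction_on' with
  | add p q hp hq => rw [ev_add]; exact add_mem hp hq
  | monomial n b =>
    rw [ev_monomial]
    apply aeval_ad_mem
    exact LieSubmodule.lie_mem_lie (ad_pow_mem A x f hf n) hg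

/-- A Lie algebra of the variety with three elements and two ideals. -/
structure Pack (Γ : Set (FreeLieAlgebra F ℕ)) where
  L : Type
  [lr : LieRing L]
  [la : LieAlgebra F L]
  sat : Satisfies Γ L
  A : LieIdeal F L
  B : LieIdeal F L
  x : L
  f : L
  g : L
  hf : f ∈ A
  hg : g ∈ B

attribute [instance] Pack.lr Pack.la

/-- All ideals of an algebra of a locally residually finite variety are separable. -/
lemma sep_of_locallyRF [Finite F] {Γ : Set (FreeLieAlgebra F ℕ)} (hΓ : LocallyRF Γ)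
    (P : Type) [LieRing P] [LieAlgebra F P] (hP : Satisfies Γ P) (hfg : IsFG F P) :
    Sep F P := by
  intro I₀ u hu
  have h1 : IsRF F (P ⧸ I₀) := hΓ (P ⧸ I₀) (hP.quotient I₀)
    (hfg.of_surjective (mkHom I₀) (mkHom_surjective I₀))
  obtain ⟨I', hfin, hI'⟩ := h1 (mkHom I₀ u) (by rw [Ne, mkHom_eq_zero]; exact hu)
  refine ⟨LieIdeal.comap (mkHom I₀) I', ?_, ?_, ?_⟩
  · intro y hy
    rw [LieIdeal.mem_comap, (mkHom_eq_zero I₀ y).2 hy]
    exact I'.zero_mem
  · have hfin2 : Finite ((P ⧸ I₀) ⧸ I') := Module.finite_of_finite F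
    let ψ : P ⧸ (LieIdeal.comap (mkHom I₀) I') → (P ⧸ I₀) ⧸ I' := fun k =>
      mkHom I' (mkHom I₀ (Quotient.out k))
    apply Finite.of_injective ψ
    intro k₁ k₂ hk
    have h1 : Quotient.out k₁ - Quotient.out k₂ ∈ LieIdeal.comap (mkHom I₀) I' := by
      rw [LieIdeal.mem_comap, ← mkHom_eq_zero, map_sub, map_sub]
      exact sub_eq_zero.2 hk
    have e1 : mkHom (LieIdeal.comap (mkHom I₀) I') (Quotient.out k₁) = k₁ := Quotient.out_eq k₁
    have e2 : mkHom (LieIdeal.comap (mkHom I₀) I') (Quotient.out k₂) = k₂ := Quotient.out_eq k₂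
    rw [← e1, ← e2, ← sub_eq_zero, ← map_sub, mkHom_eq_zero]
    exact h1
  · rw [LieIdeal.mem_comap]
    exact hI'

lemma lieSpan_subtype_eq_top {G : Type} [LieRing G] [LieAlgebra F G] (x f g : G) :
    LieSubalgebra.lieSpan F (LieSubalgebra.lieSpan F G {x, f, g})
      {(⟨x, LieSubalgebra.subset_lieSpan (by simp)⟩ : LieSubalgebra.lieSpan F G {x, f, g}),
        ⟨f, LieSubalgebra.subset_lieSpan (by simp)⟩,
        ⟨g, LieSubalgebra.subset_lieSpan (by simp)⟩} = ⊤ := by
  rw [eq_top_iff]
  rintro ⟨y, hy⟩ -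
  induction hy using LieSubalgebra.lieSpan_induction with
  | mem y hy =>
    rcases hy with rfl | rfl | rfl
    · exact LieSubalgebra.subset_lieSpan (by simp)
    · exact LieSubalgebra.subset_lieSpan (by simp)
    · exact LieSubalgebra.subset_lieSpan (by simp)
  | zero => exact LieSubalgebra.zero_mem _
  | add y z hy hz h1 h2 => exact LieSubalgebra.add_mem _ h1 h2
  | smul c y hy h1 => exact LieSubalgebra.smul_mem _ c h1
  | lie y z hy hz h1 h2 => exact LieSubalgebra.lie_mem _ h1 h2

/-- The key step for the subalgebra generated by three elements. -/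
lemma key_sub [Finite F] {Γ : Set (FreeLieAlgebra F ℕ)} (hΓ : LocallyRF Γ)
    {G : Type} [LieRing G] [LieAlgebra F G] (hG : Satisfies Γ G) (x f g : G) (h₁ : F[X][X])
    (J : Ideal F[X][X]) (ker : ∀ h, ev x f g (h * h₁) = 0 ↔ h ∈ J)
    (cf : ∀ h, ⁅f, ev x f g (h * h₁)⁆ = 0) (cg : ∀ h, ⁅g, ev x f g (h * h₁)⁆ = 0) :
    ∃ h ∈ J, h.Monic := by
  have hsatP : Satisfies Γ (LieSubalgebra.lieSpan F G {x, f, g}) := hG.subalgebra _
  have hev : ∀ h : F[X][X],
      ((ev (⟨x, LieSubalgebra.subset_lieSpan (by simp)⟩ : LieSubalgebra.lieSpan F G {x, f, g})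
        ⟨f, LieSubalgebra.subset_lieSpan (by simp)⟩
        ⟨g, LieSubalgebra.subset_lieSpan (by simp)⟩ h : LieSubalgebra.lieSpan F G {x, f, g}) : G)
      = ev x f g h := by
    intro h
    exact map_ev (LieSubalgebra.lieSpan F G {x, f, g}).incl _ _ _ h
  have hfgP : IsFG F (LieSubalgebra.lieSpan F G {x, f, g}) :=
    ⟨_, by simp, lieSpan_subtype_eq_top x f g⟩
  have hS := sep_of_locallyRF hΓ _ hsatP hfgP
  let D : CoreData F (LieSubalgebra.lieSpan F G {x, f, g}) :=
    { x := ⟨x, LieSubalgebra.subset_lieSpan (by simp)⟩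
      f := ⟨f, LieSubalgebra.subset_lieSpan (by simp)⟩
      g := ⟨g, LieSubalgebra.subset_lieSpan (by simp)⟩
      gen := lieSpan_subtype_eq_top x f g
      h₁ := h₁
      J := J
      ker := by
        intro h
        rw [← ker h, ← hev (h * h₁)]
        exact ⟨fun h0 => by rw [h0]; rfl, fun h0 => Subtype.ext h0⟩
      cf := by
        intro h
        apply Subtype.ext
        rw [LieSubalgebra.coe_bracket, hev]
        exact cf h
      cg := by
        intro h
        apply Subtype.ext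
        rw [LieSubalgebra.coe_bracket, hev]
        exact cg h }
  exact D.exists_monic hS

/-- The key step for a quotient algebra. -/
lemma key_quot [Finite F] {Γ : Set (FreeLieAlgebra F ℕ)} (hΓ : LocallyRF Γ)
    {Λ : Type} [LieRing Λ] [LieAlgebra F Λ] (hΛ : Satisfies Γ Λ) (𝒩 : LieIdeal F Λ)
    (x f g : Λ) (h₁ : F[X][X])
    (J : Ideal F[X][X]) (ker : ∀ h, ev x f g (h * h₁) ∈ 𝒩 ↔ h ∈ J)
    (cf : ∀ h, ⁅f, ev x f g (h * h₁)⁆ ∈ 𝒩) (cg : ∀ h, ⁅g, ev x f g (h * h₁)⁆ ∈ 𝒩) :
    ∃ h ∈ J, h.Monic := by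
  refine key_sub hΓ (hΛ.quotient 𝒩) (mkHom 𝒩 x) (mkHom 𝒩 f) (mkHom 𝒩 g) h₁ J ?_ ?_ ?_
  · intro h
    rw [← map_ev, mkHom_eq_zero]
    exact ker h
  · intro h
    rw [← map_ev, ← LieHom.map_lie, mkHom_eq_zero]
    exact cf h
  · intro h
    rw [← map_ev, ← LieHom.map_lie, mkHom_eq_zero]
    exact cg h

/-- The ideal of a product given by ideals of the factors. -/
def piIdeal {ι : Type} (L : ι → Type) [∀ i, LieRing (L i)] [∀ i, LieAlgebra F (L i)]
    (I : ∀ i, LieIdeal F (L i)) : LieIdeal F (PiLie L) where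
  carrier := {u | ∀ i, u i ∈ I i}
  zero_mem' := fun i => (I i).zero_mem
  add_mem' := fun ha hb i => (I i).add_mem (ha i) (hb i)
  smul_mem' := fun c _ ha i => (I i).smul_mem c (ha i)
  lie_mem := fun {y u} ha i => lie_mem_right F (L i) (I i) (y i) (u i) (ha i)

lemma mem_piIdeal {ι : Type} (L : ι → Type) [∀ i, LieRing (L i)] [∀ i, LieAlgebra F (L i)]
    (I : ∀ i, LieIdeal F (L i)) (u : PiLie L) : u ∈ piIdeal L I ↔ ∀ i, u i ∈ I i := Iff.rfl

/-- Necessity: the ideal `idJ Γ` contains a monic polynomial. -/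
theorem exists_monic_idJ [Finite F] {Γ : Set (FreeLieAlgebra F ℕ)} (hΓ : LocallyRF Γ) :
    ∃ h : F[X][X], h.Monic ∧ h ∈ idJ Γ := by
  classical
  have hex : ∀ h : {h : F[X][X] // h ∉ idJ Γ}, ∃ B : Pack Γ,
      ev B.x B.f B.g (h.1 * 1) ∉ third B.A B.B := by
    rintro ⟨h, hh⟩
    rw [mem_idJ] at hh
    push Not at hh
    obtain ⟨L, i1, i2, hL, A, B, x, f, g, hf, hg, hne⟩ := hh
    refine ⟨⟨L, hL, A, B, x, f, g, hf, hg⟩, ?_⟩
    rw [mul_one]
    exact hne
  choose B hB using hex
  have hev : ∀ (h : F[X][X]) h', (ev (L := PiLie (fun h => (B h).L)) (fun h => (B h).x)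
      (fun h => (B h).f) (fun h => (B h).g) h) h' = ev (B h').x (B h').f (B h').g h := by
    intro h h'
    exact map_ev (piProj (F := F) (fun h => (B h).L) h') (fun h => (B h).x)
      (fun h => (B h).f) (fun h => (B h).g) h
  obtain ⟨h₂, h2, h3⟩ := key_quot hΓ (Satisfies.pi (fun h => (B h).L) (fun h => (B h).sat))
    (piIdeal (fun h => (B h).L) (fun h => third (B h).A (B h).B))
    (fun h => (B h).x) (fun h => (B h).f) (fun h => (B h).g) 1
    (idJ Γ) (by
      intro h
      rw [mem_piIdeal]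
      constructor
      · intro hh
        by_contra hcon
        have := hh ⟨h, hcon⟩
        rw [hev] at this
        exact hB ⟨h, hcon⟩ this
      · intro hh h'
        rw [hev, mul_one]
        rw [mem_idJ] at hh
        exact hh (B h').L (B h').sat (B h').A (B h').B (B h').x (B h').f (B h').g
          (B h').hf (B h').hg) (by
      intro h
      rw [mem_piIdeal]
      intro h'
      have h4 : ⁅(B h').f, ev (B h').x (B h').f (B h').g (h * 1)⁆ ∈
          third (B h').A (B h').B :=
        LieSubmodule.lie_mem_lie ((le_sup_left : (B h').A ≤ (B h').A ⊔ (B h').B) (B h').hf)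
          (ev_mem_lie _ _ _ _ _ (B h').hf (B h').hg _)
      rw [← hev] at h4
      exact h4) (by
      intro h
      rw [mem_piIdeal]
      intro h'
      have h4 : ⁅(B h').g, ev (B h').x (B h').f (B h').g (h * 1)⁆ ∈
          third (B h').A (B h').B :=
        LieSubmodule.lie_mem_lie ((le_sup_right : (B h').B ≤ (B h').A ⊔ (B h').B) (B h').hg)
          (ev_mem_lie _ _ _ _ _ (B h').hf (B h').hg _)
      rw [← hev] at h4
      exact h4)
  exact ⟨h₂, h3, h2⟩

end necessity

end Pool.Agent.Lib.MP_8f946f_al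
end

section
/-!
The monic condition in terms of identities.
-/
namespace Pool.Agent.Lib.MP_8f946f_al

open Polynomial

section freeform

variable {F : Type} [Field F]

lemma satisfies_quot_verbal (Δ : Set (FreeLieAlgebra F ℕ)) (L : Type) [LieRing L]
    [LieAlgebra F L] : Satisfies Δ (L ⧸ verbal Δ L) := by
  intro φ hφ v
  choose w hw using fun n => mkHom_surjective (verbal Δ L) (v n)
  have h1 : v = fun n => mkHom (verbal Δ L) (w n) := by
    ext n
    rw [hw]
  rw [h1, ← lift_comp, mkHom_eq_zero]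
  exact LieSubmodule.subset_lieSpan ⟨φ, hφ, w, rfl⟩

/-- The image of an ideal under a surjective morphism. -/
def imgIdeal {L L' : Type} [LieRing L] [LieAlgebra F L] [LieRing L'] [LieAlgebra F L']
    (q : L →ₗ⁅F⁆ L') (hq : Function.Surjective q) (I : LieIdeal F L) : LieIdeal F L' where
  carrier := {y | ∃ x ∈ I, q x = y}
  zero_mem' := ⟨0, I.zero_mem, map_zero q⟩
  add_mem' := by
    rintro _ _ ⟨x, hx, rfl⟩ ⟨y, hy, rfl⟩
    exact ⟨x + y, I.add_mem hx hy, map_add q x y⟩
  smul_mem' := by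
    rintro t _ ⟨x, hx, rfl⟩
    exact ⟨t • x, I.smul_mem t hx, map_smul q t x⟩
  lie_mem := by
    rintro z _ ⟨x, hx, rfl⟩
    obtain ⟨y, rfl⟩ := hq z
    exact ⟨⁅y, x⁆, lie_mem_right F L I y x hx, LieHom.map_lie q y x⟩

lemma imgIdeal_mono {L L' : Type} [LieRing L] [LieAlgebra F L] [LieRing L'] [LieAlgebra F L']
    (q : L →ₗ⁅F⁆ L') (hq : Function.Surjective q) {I J : LieIdeal F L} (h : I ≤ J) :
    imgIdeal q hq I ≤ imgIdeal q hq J := by
  rintro _ ⟨x, hx, rfl⟩
  exact ⟨x, h hx, rfl⟩

lemma imgIdeal_lie {L L' : Type} [LieRing L] [LieAlgebra F L] [LieRing L'] [LieAlgebra F L']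
    (q : L →ₗ⁅F⁆ L') (hq : Function.Surjective q) (I J : LieIdeal F L) :
    (⁅imgIdeal q hq I, imgIdeal q hq J⁆ : LieIdeal F L') ≤ imgIdeal q hq ⁅I, J⁆ := by
  rw [LieSubmodule.lie_le_iff]
  rintro _ ⟨x, hx, rfl⟩ _ ⟨y, hy, rfl⟩
  exact ⟨⁅x, y⁆, LieSubmodule.lie_mem_lie hx hy, LieHom.map_lie q x y⟩

lemma imgIdeal_third {L L' : Type} [LieRing L] [LieAlgebra F L] [LieRing L'] [LieAlgebra F L']
    (q : L →ₗ⁅F⁆ L') (hq : Function.Surjective q) (I J : LieIdeal F L) :
    third (imgIdeal q hq I) (imgIdeal q hq J) ≤ imgIdeal q hq (third I J) := by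
  refine le_trans ?_ (imgIdeal_lie q hq (I ⊔ J) ⁅I, J⁆)
  exact LieSubmodule.mono_lie (sup_le (imgIdeal_mono q hq le_sup_left)
    (imgIdeal_mono q hq le_sup_right)) (imgIdeal_lie q hq I J)

lemma third_le_comap {L L' : Type} [LieRing L] [LieAlgebra F L] [LieRing L'] [LieAlgebra F L']
    (q : L →ₗ⁅F⁆ L') (I J : LieIdeal F L) (A B : LieIdeal F L') (hI : I ≤ LieIdeal.comap q A)
    (hJ : J ≤ LieIdeal.comap q B) : third I J ≤ LieIdeal.comap q (third A B) := by
  have h1 : I ⊔ J ≤ LieIdeal.comap q (A ⊔ B) := by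
    apply sup_le
    · intro y hy
      have : q y ∈ A := LieIdeal.mem_comap.1 (hI hy)
      exact LieIdeal.mem_comap.2 ((le_sup_left : A ≤ A ⊔ B) this)
    · intro y hy
      have : q y ∈ B := LieIdeal.mem_comap.1 (hJ hy)
      exact LieIdeal.mem_comap.2 ((le_sup_right : B ≤ A ⊔ B) this)
  have h2 : (⁅I, J⁆ : LieIdeal F L) ≤ LieIdeal.comap q ⁅A, B⁆ := by
    rw [LieSubmodule.lie_le_iff]
    intro x hx y hy
    rw [LieIdeal.mem_comap, LieHom.map_lie]
    exact LieSubmodule.lie_mem_lie (LieIdeal.mem_comap.1 (hI hx)) (LieIdeal.mem_comap.1 (hJ hy))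
  unfold third
  rw [LieSubmodule.lie_le_iff]
  intro x hx y hy
  rw [LieIdeal.mem_comap, LieHom.map_lie]
  exact LieSubmodule.lie_mem_lie (LieIdeal.mem_comap.1 (h1 hx)) (LieIdeal.mem_comap.1 (h2 hy))

lemma aeval_ad_map {L L' : Type} [LieRing L] [LieAlgebra F L] [LieRing L'] [LieAlgebra F L']
    (q : L →ₗ⁅F⁆ L') (x y : L) (a : F[X]) : q ((aeval (LieAlgebra.ad F L x) a) y) =
      (aeval (LieAlgebra.ad F L' (q x)) a) (q y) := by
  have hpow : ∀ (j : ℕ) (y : L), q (((LieAlgebra.ad F L x) ^ j) y) =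
      ((LieAlgebra.ad F L' (q x)) ^ j) (q y) := by
    intro j
    induction j with
    | zero => intro y; simp
    | succ j ih =>
      intro y
      rw [pow_succ', pow_succ', Module.End.mul_apply, Module.End.mul_apply, LieAlgebra.ad_apply,
        LieAlgebra.ad_apply, LieHom.map_lie, ih]
  induction a using Polynomial.induction_on' with
  | add p r hp hr => simp [hp, hr]
  | monomial n b =>
    rw [aeval_monomial, aeval_monomial, Module.End.mul_apply, Module.End.mul_apply,
      Module.algebraMap_end_apply, Module.algebraMap_end_apply, map_smul, hpow]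

lemma monicForm_eq_ev {L : Type} [LieRing L] [LieAlgebra F L] (k : ℕ) (c : ℕ → F[X])
    (x f g : L) : monicForm k c x f g =
      ev x f g (X ^ k - ∑ j ∈ Finset.range k, C (c j) * X ^ j) := by
  have h1 : ∀ j, ev (F := F) x f g (X ^ j) = ⁅((LieAlgebra.ad F L x) ^ j) f, g⁆ := by
    intro j
    have := ev_X_pow_mul (F := F) x f g j 1
    rw [mul_one, ev_one] at this
    exact this
  have h2 : ∀ {ι : Type} (s : Finset ι) (h : ι → F[X][X]),
      ev x f g (∑ i ∈ s, h i) = ∑ i ∈ s, ev x f g (h i) := fun s h => map_sum (evHom x f g) h s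
  rw [ev_sub, h2, h1]
  unfold monicForm
  congr 1
  apply Finset.sum_congr rfl
  intro j _
  rw [ev_C_mul, h1]

lemma monicForm_map {L L' : Type} [LieRing L] [LieAlgebra F L] [LieRing L'] [LieAlgebra F L']
    (q : L →ₗ⁅F⁆ L') (k : ℕ) (c : ℕ → F[X]) (x f g : L) :
    q (monicForm k c x f g) = monicForm k c (q x) (q f) (q g) := by
  rw [monicForm_eq_ev, monicForm_eq_ev, map_ev]

lemma verbal_map {Γ : Set (FreeLieAlgebra F ℕ)} {L L' : Type} [LieRing L] [LieAlgebra F L]
    [LieRing L'] [LieAlgebra F L'] (q : L →ₗ⁅F⁆ L') (hL' : Satisfies Γ L') (y : L)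
    (hy : y ∈ verbal Γ L) : q y = 0 := by
  have h1 : verbal Γ L ≤ LieIdeal.comap q ⊥ := by
    unfold verbal
    rw [LieSubmodule.lieSpan_le]
    rintro _ ⟨φ, hφ, v, rfl⟩
    change q _ ∈ (⊥ : LieIdeal F L')
    rw [LieSubmodule.mem_bot, lift_comp]
    exact hL' φ hφ _
  have h2 := LieIdeal.mem_comap.1 (h1 hy)
  rwa [LieSubmodule.mem_bot] at h2

/-- A locally residually finite variety has a monic identity. -/
theorem hasMonicIdentity_of_locallyRF [Finite F] {Γ : Set (FreeLieAlgebra F ℕ)}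
    (hΓ : LocallyRF Γ) : HasMonicIdentity Γ := by
  obtain ⟨h, hm, hJ⟩ := exists_monic_idJ hΓ
  set k := h.natDegree with hk
  set c : ℕ → F[X] := fun j => - h.coeff j with hc
  have hform : ∀ (L : Type) [LieRing L] [LieAlgebra F L] (x f g : L),
      monicForm k c x f g = ev x f g h := by
    intro L _ _ x f g
    rw [monicForm_eq_ev]
    congr 1
    conv_rhs => rw [h.as_sum_range_C_mul_X_pow]
    rw [Finset.sum_range_succ]
    have : h.coeff h.natDegree = 1 := hm
    rw [this, C_1, one_mul, sub_eq_add_neg, ← Finset.sum_neg_distrib, add_comm]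
    congr 1
    apply Finset.sum_congr rfl
    intro j _
    rw [hc, C_neg]
    ring
  let Fr := FreeLieAlgebra F ℕ
  let q : Fr →ₗ⁅F⁆ Fr ⧸ verbal Γ Fr := mkHom (verbal Γ Fr)
  have hq : Function.Surjective q := mkHom_surjective _
  let A₀ : LieIdeal F Fr := LieSubmodule.lieSpan F Fr {FreeLieAlgebra.of F 1}
  let B₀ : LieIdeal F Fr := LieSubmodule.lieSpan F Fr {FreeLieAlgebra.of F 2}
  have h1 : ev (q (FreeLieAlgebra.of F 0)) (q (FreeLieAlgebra.of F 1)) (q (FreeLieAlgebra.of F 2))
      h ∈ third (imgIdeal q hq A₀) (imgIdeal q hq B₀) :=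
    hJ _ (satisfies_quot_verbal Γ Fr) _ _ _ _ _
      ⟨_, LieSubmodule.subset_lieSpan rfl, rfl⟩ ⟨_, LieSubmodule.subset_lieSpan rfl, rfl⟩
  obtain ⟨w, hw, hwq⟩ := imgIdeal_third q hq A₀ B₀ h1
  refine ⟨k, c, w, hw, fun L _ _ hL => ?_⟩
  intro φ hφ v
  rw [Set.mem_singleton_iff.1 hφ]
  apply verbal_map (FreeLieAlgebra.lift F v) hL
  rw [← mkHom_eq_zero, map_sub, monicForm_map, hform]
  change ev (q (FreeLieAlgebra.of F 0)) (q (FreeLieAlgebra.of F 1)) (q (FreeLieAlgebra.of F 2))
      h - q w = 0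
  rw [hwq, sub_self]

/-- The quantified version of the monic identity. -/
lemma monicForm_mem_third (k : ℕ) (c : ℕ → F[X])
    (w : FreeLieAlgebra F ℕ) (hw : w ∈ freeThird F) (L : Type) [LieRing L] [LieAlgebra F L]
    (hL : Satisfies {monicForm k c (FreeLieAlgebra.of F 0) (FreeLieAlgebra.of F 1)
        (FreeLieAlgebra.of F 2) - w} L) (A B : LieIdeal F L) (x f g : L) (hf : f ∈ A)
    (hg : g ∈ B) : monicForm k c x f g ∈ third A B := by
  let v : ℕ → L := fun n => if n = 0 then x else if n = 1 then f else g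
  have h1 := hL _ rfl v
  rw [map_sub, monicForm_map, FreeLieAlgebra.lift_of_apply, FreeLieAlgebra.lift_of_apply,
    FreeLieAlgebra.lift_of_apply, sub_eq_zero] at h1
  have h2 : monicForm k c x f g = FreeLieAlgebra.lift F v w := h1
  rw [h2]
  refine LieIdeal.mem_comap.1 (third_le_comap (FreeLieAlgebra.lift F v) _ _ A B ?_ ?_ hw)
  · rw [LieSubmodule.lieSpan_le, Set.singleton_subset_iff]
    change FreeLieAlgebra.lift F v _ ∈ A
    rw [FreeLieAlgebra.lift_of_apply]
    exact hf
  · rw [LieSubmodule.lieSpan_le, Set.singleton_subset_iff]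
    change FreeLieAlgebra.lift F v _ ∈ B
    rw [FreeLieAlgebra.lift_of_apply]
    exact hg

end freeform

end Pool.Agent.Lib.MP_8f946f_al
end

section
/-!
Relative versions of the finiteness results.
-/
namespace Pool.Agent.Lib.MP_8f946f_al

section transfer

variable {F : Type} [Field F]
variable {L : Type} [LieRing L] [LieAlgebra F L] (N : LieIdeal F L)
variable {M : Type} [AddCommGroup M] [Module F M] [LieRingModule L M] [LieModule F L M]

/-- The quotient of a submodule by another submodule. -/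
abbrev Qt (A B : LieSubmodule F L M) : Type := ↥A ⧸ (B.comap A.incl)

/-- The projection. -/
abbrev qmk (A B : LieSubmodule F L M) : ↥A →ₗ⁅F,L⁆ Qt A B := LieSubmodule.Quotient.mk' _

lemma qmk_surjective (A B : LieSubmodule F L M) : Function.Surjective (qmk A B) :=
  LieSubmodule.Quotient.surjective_mk' _

lemma qmk_eq_zero (A B : LieSubmodule F L M) (a : A) : qmk A B a = 0 ↔ (a : M) ∈ B := by
  rw [LieSubmodule.Quotient.mk_eq_zero, LieSubmodule.mem_comap]
  rfl

lemma qt_trivial (A B : LieSubmodule F L M) (hAB : ∀ n ∈ N, ∀ a ∈ A, ⁅n, a⁆ ∈ B) :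
    ∀ n ∈ N, ∀ v : Qt A B, ⁅n, v⁆ = 0 := by
  intro n hn v
  obtain ⟨a, rfl⟩ := qmk_surjective A B v
  rw [← LieModuleHom.map_lie, qmk_eq_zero]
  exact hAB n hn a a.2

lemma qt_gen (A B : LieSubmodule F L M) (S : Set M) (hS : S.Finite) (hSA : S ⊆ A)
    (h : A ≤ LieSubmodule.lieSpan F L S ⊔ B) :
    ∃ S' : Set (Qt A B), S'.Finite ∧ LieSubmodule.lieSpan F L S' = ⊤ := by
  refine ⟨qmk A B '' ((fun a : A => (a : M)) ⁻¹' S),
    (hS.preimage Subtype.coe_injective.injOn).image _, ?_⟩
  set S' := qmk A B '' ((fun a : A => (a : M)) ⁻¹' S) with hS'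
  rw [eq_top_iff]
  rintro v -
  obtain ⟨a, rfl⟩ := qmk_surjective A B v
  obtain ⟨s, hs, b, hb, hab⟩ := LieSubmodule.mem_sup _ _ _ |>.1 (h a.2)
  -- U = pull back
  let U : LieSubmodule F L M := ((LieSubmodule.lieSpan F L S').comap (qmk A B)).map A.incl
  have hSU : LieSubmodule.lieSpan F L S ≤ U := by
    rw [LieSubmodule.lieSpan_le]
    intro t ht
    refine LieSubmodule.mem_map _ |>.2 ⟨⟨t, hSA ht⟩, ?_, rfl⟩
    rw [LieSubmodule.mem_comap]
    exact LieSubmodule.subset_lieSpan ⟨⟨t, hSA ht⟩, ht, rfl⟩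
  obtain ⟨u, hu, hus⟩ := LieSubmodule.mem_map _ |>.1 (hSU hs)
  rw [LieSubmodule.mem_comap] at hu
  have h1 : qmk A B a = qmk A B u := by
    rw [← sub_eq_zero, ← map_sub, qmk_eq_zero]
    have : ((a - u : A) : M) = b := by
      rw [LieSubmodule.coe_sub, ← hab, ← hus]
      simp
    rw [this]
    exact hb
  rw [h1]
  exact hu

/-- Submodules are finitely generated, relative version. -/
theorem fg_sub [Finite F] [Finite (L ⧸ N)] (A B C : LieSubmodule F L M)
    (hAB : ∀ n ∈ N, ∀ a ∈ A, ⁅n, a⁆ ∈ B) (S : Set M) (hS : S.Finite) (hSA : S ⊆ A)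
    (h : A ≤ LieSubmodule.lieSpan F L S ⊔ B) (hC : C ≤ A) :
    ∃ T : Set M, T.Finite ∧ T ⊆ C ∧ C ≤ LieSubmodule.lieSpan F L T ⊔ B := by
  obtain ⟨S', hS', hgen⟩ := qt_gen A B S hS hSA h
  let C' : LieSubmodule F L (Qt A B) := (C.comap A.incl).map (qmk A B)
  obtain ⟨T', hT', hT'C, hT'gen⟩ := submodule_fg N (qt_trivial N A B hAB) S' hS' hgen C'
  have hex : ∀ t : T', ∃ c : A, (c : M) ∈ C ∧ qmk A B c = t := by
    rintro ⟨t, ht⟩
    obtain ⟨c, hc, rfl⟩ := LieSubmodule.mem_map _ |>.1 (hT'C ht)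
    exact ⟨c, hc, rfl⟩
  choose c hc hct using hex
  have hfinT' : Finite T' := hT'
  refine ⟨Set.range (fun t => (c t : M)), Set.finite_range _, ?_, ?_⟩
  · rintro _ ⟨t, rfl⟩
    exact hc t
  · set V := LieSubmodule.lieSpan F L (Set.range (fun t => (c t : M))) ⊔ B with hV
    have h1 : LieSubmodule.lieSpan F L T' ≤ (V.comap A.incl).map (qmk A B) := by
      rw [LieSubmodule.lieSpan_le]
      intro t ht
      refine LieSubmodule.mem_map _ |>.2 ⟨c ⟨t, ht⟩, ?_, hct ⟨t, ht⟩⟩
      rw [LieSubmodule.mem_comap, hV]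
      exact (le_sup_left : _ ≤ LieSubmodule.lieSpan F L _ ⊔ B)
        (LieSubmodule.subset_lieSpan ⟨⟨t, ht⟩, rfl⟩)
    intro x hx
    have h2 : qmk A B ⟨x, hC hx⟩ ∈ C' := LieSubmodule.mem_map _ |>.2 ⟨⟨x, hC hx⟩, hx, rfl⟩
    obtain ⟨v, hv, hvx⟩ := LieSubmodule.mem_map _ |>.1 (h1 (hT'gen h2))
    rw [LieSubmodule.mem_comap] at hv
    have h3 : ((⟨x, hC hx⟩ - v : A) : M) ∈ B := by
      rw [← qmk_eq_zero, map_sub, hvx, sub_self]
    have h4 : x = (v : M) + ((⟨x, hC hx⟩ - v : A) : M) := by
      rw [LieSubmodule.coe_sub]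
      simp
    rw [h4]
    exact V.add_mem hv ((le_sup_right : B ≤ _) h3)

/-- Monolithic modules: finitely generated submodules annihilated by `N` are finite. -/
theorem fin_mono [Finite F] [Finite (L ⧸ N)] (A : LieSubmodule F L M)
    (hA : ∀ n ∈ N, ∀ a ∈ A, ⁅n, a⁆ = 0) (S : Set M) (hS : S.Finite) (hSA : S ⊆ A)
    (h : A ≤ LieSubmodule.lieSpan F L S) (z₀ : M) (hz₀ : z₀ ≠ 0)
    (hz : ∀ U : LieSubmodule F L M, U ≠ ⊥ → z₀ ∈ U) : Finite A := by
  by_cases hbot : A = ⊥
  · subst hbot
    infer_instance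
  have hzA : z₀ ∈ A := hz A hbot
  -- generation of `A` as a module
  have hgen : LieSubmodule.lieSpan F L ((fun a : A => (a : M)) ⁻¹' S) = ⊤ := by
    rw [eq_top_iff]
    rintro a -
    have hSU : LieSubmodule.lieSpan F L S ≤
        (LieSubmodule.lieSpan F L ((fun a : A => (a : M)) ⁻¹' S)).map A.incl := by
      rw [LieSubmodule.lieSpan_le]
      intro t ht
      refine LieSubmodule.mem_map _ |>.2 ⟨⟨t, hSA ht⟩, ?_, rfl⟩
      exact LieSubmodule.subset_lieSpan ht
    obtain ⟨u, hu, hus⟩ := LieSubmodule.mem_map _ |>.1 (hSU (h a.2))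
    have : u = a := Subtype.ext hus
    rwa [← this]
  refine finite_of_monolithic (M := A) N ?_ _ (hS.preimage Subtype.coe_injective.injOn) hgen
    ⟨z₀, hzA⟩ ?_ ?_
  · rintro n hn ⟨a, ha⟩
    apply Subtype.ext
    exact hA n hn a ha
  · intro h0
    exact hz₀ (congrArg (fun a : A => (a : M)) h0)
  · intro U hU
    have h1 : U.map A.incl ≠ ⊥ := by
      intro h0
      apply hU
      rw [eq_bot_iff]
      intro u hu
      have : A.incl u ∈ U.map A.incl := LieSubmodule.mem_map _ |>.2 ⟨u, hu, rfl⟩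
      rw [h0, LieSubmodule.mem_bot] at this
      rw [LieSubmodule.mem_bot]
      exact Subtype.ext this
    obtain ⟨u, hu, hus⟩ := LieSubmodule.mem_map _ |>.1 (hz _ h1)
    have : u = ⟨z₀, hzA⟩ := Subtype.ext hus
    rwa [← this]

lemma hom_toEnd_pow {M' : Type} [AddCommGroup M'] [Module F M'] [LieRingModule L M']
    [LieModule F L M'] (q : M →ₗ⁅F,L⁆ M') (y : L) (n : ℕ) (m : M) :
    q (((LieModule.toEnd F L M y) ^ n) m) = ((LieModule.toEnd F L M' y) ^ n) (q m) := by
  induction n with
  | zero => simp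
  | succ n ih =>
    rw [pow_succ', pow_succ', Module.End.mul_apply, Module.End.mul_apply,
      LieModule.toEnd_apply_apply, LieModule.toEnd_apply_apply, LieModuleHom.map_lie, ih]

/-- Periodic action, relative version. -/
theorem fin_per [Finite F] [Finite (L ⧸ N)] (A B : LieSubmodule F L M)
    (hAB : ∀ n ∈ N, ∀ a ∈ A, ⁅n, a⁆ ∈ B) (S : Set M) (hS : S.Finite) (hSA : S ⊆ A)
    (h : A ≤ LieSubmodule.lieSpan F L S ⊔ B)
    (hper : ∀ y : L, ∃ m n : ℕ, m < n ∧ ∀ a ∈ A, ((LieModule.toEnd F L M y) ^ n) a -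
      ((LieModule.toEnd F L M y) ^ m) a ∈ B) [Finite B] : Finite A := by
  obtain ⟨S', hS', hgen⟩ := qt_gen A B S hS hSA h
  have hfinQ : Finite (Qt A B) := by
    refine finite_of_periodic N (qt_trivial N A B hAB) S' hS' hgen ?_
    intro y
    obtain ⟨m, n, hmn, hy⟩ := hper y
    refine ⟨m, n, hmn, fun v => ?_⟩
    obtain ⟨a, rfl⟩ := qmk_surjective A B v
    rw [← hom_toEnd_pow, ← hom_toEnd_pow, ← sub_eq_zero, ← map_sub, qmk_eq_zero]
    have h1 := hom_toEnd_pow A.incl y n a
    have h2 := hom_toEnd_pow A.incl y m a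
    have h3 := hy a a.2
    rw [LieSubmodule.coe_sub]
    change ((LieModule.toEnd F L A y ^ n) a : M) - ((LieModule.toEnd F L A y ^ m) a : M) ∈ B
    change ((LieModule.toEnd F L A y ^ n) a : M) = _ at h1
    change ((LieModule.toEnd F L A y ^ m) a : M) = _ at h2
    rw [h1, h2]
    exact h3
  have hfinK : Finite (↥(B.comap A.incl)) := by
    let ψ : ↥(B.comap A.incl) → B := fun k => ⟨((k.1 : A) : M), k.2⟩
    apply Finite.of_injective ψ
    intro k₁ k₂ hk
    have : ((k₁.1 : A) : M) = ((k₂.1 : A) : M) := congrArg (fun b : B => (b : M)) hk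
    exact Subtype.ext (Subtype.ext this)
  let K : AddSubgroup A := (B.comap A.incl).toSubmodule.toAddSubgroup
  have i1 : Finite K := hfinK
  have i2 : Finite (A ⧸ K) := hfinQ
  exact Finite.of_addSubgroup_quotient K

end transfer

end Pool.Agent.Lib.MP_8f946f_al
end

section
/-!
The terms of the lower central series of an ideal of finite index are finitely generated modulo
the next term.
-/
namespace Pool.Agent.Lib.MP_8f946f_al

open Polynomial

section sufficiency

variable {F : Type} [Field F] {L : Type} [LieRing L] [LieAlgebra F L] (N : LieIdeal F L)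

/-- An ideal of finite index in a finitely generated algebra is finitely generated as an ideal. -/
lemma ideal_fg [Finite F] [Finite (L ⧸ N)] (hfg : IsFG F L) :
    ∃ S : Set L, S.Finite ∧ S ⊆ N ∧ N ≤ LieSubmodule.lieSpan F L S := by
  obtain ⟨s, hs, hgen⟩ := hfg
  let σ := sec N
  let S₁ : Set L := (fun x => x - σ (mkHom N x)) '' s
  let S₂ : Set L := Set.range fun ab : (L ⧸ N) × (L ⧸ N) => σ (ab.1 + ab.2) - (σ ab.1 + σ ab.2)
  let S₃ : Set L := Set.range fun ta : F × (L ⧸ N) => σ (ta.1 • ta.2) - ta.1 • σ ta.2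
  let S₄ : Set L := Set.range fun ab : (L ⧸ N) × (L ⧸ N) => σ ⁅ab.1, ab.2⁆ - ⁅σ ab.1, σ ab.2⁆
  let S := S₁ ∪ S₂ ∪ S₃ ∪ S₄
  have hσ : ∀ q, mkHom N (σ q) = q := mk_sec N
  refine ⟨S, ?_, ?_, ?_⟩
  · exact (((hs.image _).union (Set.finite_range _)).union (Set.finite_range _)).union
      (Set.finite_range _)
  · rintro y (((h | h) | h) | h)
    · obtain ⟨x, _, rfl⟩ := h
      exact sub_sec_mem N x
    · obtain ⟨⟨a, b⟩, rfl⟩ := h
      change _ ∈ N
      rw [← mkHom_eq_zero]
      simp only [map_sub, map_add, hσ, sub_self]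
    · obtain ⟨⟨t, a⟩, rfl⟩ := h
      change _ ∈ N
      rw [← mkHom_eq_zero]
      simp only [map_sub, map_smul, hσ, sub_self]
    · obtain ⟨⟨a, b⟩, rfl⟩ := h
      change _ ∈ N
      rw [← mkHom_eq_zero]
      simp only [map_sub, LieHom.map_lie, hσ, sub_self]
  · set K := LieSubmodule.lieSpan F L S with hK
    have k1 : ∀ x ∈ s, x - σ (mkHom N x) ∈ K := fun x hx =>
      LieSubmodule.subset_lieSpan (Or.inl (Or.inl (Or.inl ⟨x, hx, rfl⟩)))
    have k2 : ∀ a b, σ (a + b) - (σ a + σ b) ∈ K := fun a b =>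
      LieSubmodule.subset_lieSpan (Or.inl (Or.inl (Or.inr ⟨(a, b), rfl⟩)))
    have k3 : ∀ (t : F) a, σ (t • a) - t • σ a ∈ K := fun t a =>
      LieSubmodule.subset_lieSpan (Or.inl (Or.inr ⟨(t, a), rfl⟩))
    have k4 : ∀ a b, σ ⁅a, b⁆ - ⁅σ a, σ b⁆ ∈ K := fun a b =>
      LieSubmodule.subset_lieSpan (Or.inr ⟨(a, b), rfl⟩)
    have k0 : σ 0 ∈ K := by
      have := k3 0 0
      simpa using this
    have key : ∀ y : L, y - σ (mkHom N y) ∈ K := by
      intro y
      have hy : y ∈ LieSubalgebra.lieSpan F L s := by rw [hgen]; exact LieSubalgebra.mem_top y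
      induction hy using LieSubalgebra.lieSpan_induction with
      | mem y hy => exact k1 y hy
      | zero =>
        rw [map_zero, zero_sub]
        exact K.neg_mem k0
      | add y z _ _ hy hz =>
        have e : y + z - σ (mkHom N (y + z)) = (y - σ (mkHom N y)) + (z - σ (mkHom N z)) -
            (σ (mkHom N y + mkHom N z) - (σ (mkHom N y) + σ (mkHom N z))) := by
          rw [map_add]; abel
        rw [e]
        exact sub_mem (add_mem hy hz) (k2 (mkHom N y) (mkHom N z))
      | smul t y _ hy =>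
        have e : t • y - σ (mkHom N (t • y)) = t • (y - σ (mkHom N y)) -
            (σ (t • mkHom N y) - t • σ (mkHom N y)) := by
          rw [map_smul, smul_sub]; abel
        rw [e]
        exact sub_mem (K.smul_mem t hy) (k3 t (mkHom N y))
      | lie y z _ _ hy hz =>
        have h2 : ⁅y - σ (mkHom N y), z⁆ ∈ K := by
          rw [← lie_skew]
          exact K.neg_mem (K.lie_mem hy)
        have h3 : ⁅σ (mkHom N y), z - σ (mkHom N z)⁆ ∈ K := K.lie_mem hz
        have e : ⁅y, z⁆ - σ (mkHom N ⁅y, z⁆) = ⁅y - σ (mkHom N y), z⁆ +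
            ⁅σ (mkHom N y), z - σ (mkHom N z)⁆ -
            (σ ⁅mkHom N y, mkHom N z⁆ - ⁅σ (mkHom N y), σ (mkHom N z)⁆) := by
          rw [LieHom.map_lie, sub_lie, lie_sub]; abel
        rw [e]
        exact sub_mem (add_mem h2 h3) (k4 (mkHom N y) (mkHom N z))
    intro n hn
    have h1 := key n
    rw [(mkHom_eq_zero N n).2 hn] at h1
    have h2 := K.add_mem h1 k0
    simpa using h2

/-- `[[N,N], gam N i] ≤ gam N (i+2)`. -/
lemma lie_lie_mem_gam (i : ℕ) (b v : L) (hb : b ∈ gam N 1) (hv : v ∈ gam N i) :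
    ⁅b, v⁆ ∈ gam N (i + 2) := by
  have h1 : b ∈ Submodule.span F { ⁅x, n⁆ | (x ∈ N) (n ∈ N) } := by
    have : b ∈ (⁅N, N⁆ : LieIdeal F L) := hb
    rw [← LieSubmodule.mem_toSubmodule, LieSubmodule.lieIdeal_oper_eq_linear_span'] at this
    exact this
  clear hb
  induction h1 using Submodule.span_induction with
  | mem b hb' =>
    obtain ⟨x, hx, n, hn, rfl⟩ := hb'
    rw [lie_lie]
    apply sub_mem
    · exact LieSubmodule.lie_mem_lie hx (LieSubmodule.lie_mem_lie hn hv)
    · exact LieSubmodule.lie_mem_lie hn (LieSubmodule.lie_mem_lie hx hv)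
  | zero => rw [zero_lie]; exact LieSubmodule.zero_mem _
  | add a b _ _ ha hb =>
    rw [add_lie]
    exact add_mem ha hb
  | smul t a _ ha =>
    rw [smul_lie]
    exact (gam N (i + 2)).smul_mem t ha

variable (k : ℕ) (c' : ℕ → F[X])
variable (hid : ∀ (i : ℕ) (x : L), ∀ f ∈ N, ∀ g ∈ gam N i, monicForm k c' x f g ∈ gam N (i + 2))

include hid in
/-- Finitely many elements of `N` suffice in the first slot. -/
lemma first_slot [Finite (L ⧸ N)] (S₀ : Set L) (hS₀ : S₀.Finite) (hS₀N : S₀ ⊆ N)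
    (hgen : N ≤ LieSubmodule.lieSpan F L S₀) :
    ∃ T : Set L, T.Finite ∧ T ⊆ N ∧ ∀ (i : ℕ), ∀ v ∈ gam N i, ∀ n ∈ N,
      ⁅n, v⁆ ∈ LieSubmodule.lieSpan F L ((fun t => ⁅t, v⁆) '' T) ⊔ gam N (i + 2) := by
  obtain ⟨n₀, hn₀⟩ := pigeon (H := L ⧸ N) (fun _ => k)
  let S' : Set N := (fun a : N => (a : L)) ⁻¹' S₀
  have hS' : S'.Finite := hS₀.preimage Subtype.coe_injective.injOn
  let T' : Set N := Set.image2 (fun l s => act N l s) {l : List (L ⧸ N) | l.length < n₀} S'
  have hT' : T'.Finite := (List.finite_length_lt _ _).image2 _ hS'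
  refine ⟨(fun a : N => (a : L)) '' T', hT'.image _, ?_, ?_⟩
  · rintro _ ⟨a, _, rfl⟩
    exact a.2
  · intro i v hv
    set W := LieSubmodule.lieSpan F L ((fun t => ⁅t, v⁆) '' ((fun a : N => (a : L)) '' T')) ⊔
      gam N (i + 2) with hW
    let B : AddSubgroup N :=
      (LieSubmodule.comap (LieSubmodule.incl N) (gam N 1)).toSubmodule.toAddSubgroup
    have hmemB : ∀ b : N, b ∈ B ↔ (b : L) ∈ gam N 1 := fun b => Iff.rfl
    let Sv : AddSubgroup N :=
      { carrier := {w | ⁅(w : L), v⁆ ∈ W}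
        zero_mem' := by
          change ⁅((0 : N) : L), v⁆ ∈ W
          rw [LieSubmodule.coe_zero, zero_lie]
          exact W.zero_mem
        add_mem' := by
          intro a b ha hb
          change ⁅((a + b : N) : L), v⁆ ∈ W
          rw [LieSubmodule.coe_add, add_lie]
          exact W.add_mem ha hb
        neg_mem' := by
          intro a ha
          change ⁅((-a : N) : L), v⁆ ∈ W
          rw [LieSubmodule.coe_neg, neg_lie]
          exact W.neg_mem ha }
    have hmemS : ∀ w : N, w ∈ Sv ↔ ⁅(w : L), v⁆ ∈ W := fun w => Iff.rfl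
    have hBS : B ≤ Sv := by
      intro b hb
      rw [hmemS]
      exact (le_sup_right : gam N (i + 2) ≤ W) (lie_lie_mem_gam N i b v hb hv)
    have hB1 : ∀ y : L, ∀ b ∈ B, ⁅y, b⁆ ∈ B := by
      intro y b hb
      rw [hmemB] at hb ⊢
      exact (gam N 1).lie_mem hb
    have hB2 : ∀ n ∈ N, ∀ w : N, ⁅n, w⁆ ∈ B := by
      intro n hn w
      rw [hmemB]
      exact LieSubmodule.lie_mem_lie hn w.2
    have key : ∀ m : ℕ, ∀ l : List (L ⧸ N), l.length = m → ∀ s ∈ S', act N l s ∈ Sv := by
      intro m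
      induction m using Nat.strong_induction_on with
      | _ m ih =>
        intro l hl s hs
        rcases Nat.lt_or_ge l.length n₀ with h | h
        · rw [hmemS]
          exact (le_sup_left : _ ≤ W) (LieSubmodule.subset_lieSpan
            ⟨_, ⟨act N l s, ⟨l, h, s, hs, rfl⟩, rfl⟩, rfl⟩)
        · obtain ⟨q, l', hp⟩ := hn₀ l h
          have h1 := act_perm (F := F) N B hB1 hB2 s hp
          have h2 : Wd N B s l.length ≤ Sv := by
            apply sup_le _ hBS
            rw [AddSubgroup.closure_le]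
            rintro w ⟨l₁, hl₁, rfl⟩
            exact ih l₁.length (by omega) l₁ rfl s hs
          have h3 : act N l s - act N (List.replicate k q ++ l') s ∈ Sv := h2 h1
          have hcoe : ∀ (j : ℕ) (w : N), (((LieModule.toEnd F L N (sec N q)) ^ j) w : L) =
              ((LieAlgebra.ad F L (sec N q)) ^ j) (w : L) := by
            intro j w
            exact hom_toEnd_pow (LieSubmodule.incl N) (sec N q) j w
          have h4 : act N (List.replicate k q ++ l') s ∈ Sv := by
            rw [act_append, act_replicate F, hmemS, hcoe]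
            have hm : monicForm k c' (sec N q) ((act N l' s : N) : L) v ∈ W :=
              (le_sup_right : gam N (i + 2) ≤ W) (hid i (sec N q) _ (act N l' s).2 v hv)
            unfold monicForm at hm
            rw [← sub_add_cancel ⁅((LieAlgebra.ad F L (sec N q)) ^ k) ((act N l' s : N) : L), v⁆
              (∑ j ∈ Finset.range k, (aeval (LieAlgebra.ad F L (sec N q)) (c' j))
                ⁅((LieAlgebra.ad F L (sec N q)) ^ j) ((act N l' s : N) : L), v⁆)]
            refine add_mem hm ?_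
            apply sum_mem
            intro j hj
            apply aeval_ad_mem
            rw [← hcoe, ← hmemS, ← act_replicate F, ← act_append]
            refine ih _ ?_ (List.replicate j q ++ l') rfl s hs
            have := hp.length_eq
            have hj' := Finset.mem_range.1 hj
            simp only [List.length_append, List.length_replicate] at this ⊢
            omega
          have := AddSubgroup.add_mem _ h3 h4
          simpa using this
    -- the set of good elements is an ideal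
    have hlie : ∀ (x : L) (w : N), w ∈ AddSubgroup.closure
        ({w | ∃ (t : F) (l : List (L ⧸ N)), ∃ s ∈ S', w = t • act N l s} : Set N) ⊔ B →
        ⁅x, w⁆ ∈ AddSubgroup.closure
        ({w | ∃ (t : F) (l : List (L ⧸ N)), ∃ s ∈ S', w = t • act N l s} : Set N) ⊔ B := by
      intro x w hw
      set E : AddSubgroup N := AddSubgroup.closure
        ({w | ∃ (t : F) (l : List (L ⧸ N)), ∃ s ∈ S', w = t • act N l s} : Set N) ⊔ B with hE
      have hle : E ≤ AddSubgroup.comap (LieModule.toEnd F L N x).toAddMonoidHom E := by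
        apply sup_le
        · rw [AddSubgroup.closure_le]
          rintro w ⟨t, l, s, hs, rfl⟩
          change ⁅x, t • act N l s⁆ ∈ E
          have h5 : ⁅x, t • act N l s⁆ = t • act N (mkHom N x :: l) s +
              t • ⁅x - sec N (mkHom N x), act N l s⁆ := by
            rw [act_cons, lie_smul, sub_lie, ← smul_add]
            congr 1
            abel
          rw [h5]
          apply AddSubgroup.add_mem
          · exact AddSubgroup.mem_sup_left (AddSubgroup.subset_closure ⟨t, _, s, hs, rfl⟩)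
          · apply AddSubgroup.mem_sup_right
            rw [hmemB, LieSubmodule.coe_smul]
            exact (gam N 1).smul_mem t ((hmemB _).1 (hB2 _ (sub_sec_mem N x) _))
        · intro b hb
          exact AddSubgroup.mem_sup_right (hB1 _ _ hb)
      exact hle hw
    let E : AddSubgroup N := AddSubgroup.closure
        ({w | ∃ (t : F) (l : List (L ⧸ N)), ∃ s ∈ S', w = t • act N l s} : Set N) ⊔ B
    have hES : E ≤ Sv := by
      apply sup_le _ hBS
      rw [AddSubgroup.closure_le]
      rintro w ⟨t, l, s, hs, rfl⟩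
      change _ ∈ Sv
      rw [hmemS, LieSubmodule.coe_smul, smul_lie]
      exact W.smul_mem t ((hmemS _).1 (key _ l rfl s hs))
    let U : LieSubmodule F L N :=
      { carrier := {w | w ∈ E}
        zero_mem' := E.zero_mem
        add_mem' := fun ha hb => E.add_mem ha hb
        smul_mem' := by
          intro t w hw
          have hle : E ≤ AddSubgroup.comap (DistribSMul.toAddMonoidHom N t) E := by
            apply sup_le
            · rw [AddSubgroup.closure_le]
              rintro w ⟨t', l, s, hs, rfl⟩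
              change t • t' • act N l s ∈ E
              rw [smul_smul]
              exact AddSubgroup.mem_sup_left (AddSubgroup.subset_closure ⟨_, _, s, hs, rfl⟩)
            · intro b hb
              change t • b ∈ E
              apply AddSubgroup.mem_sup_right
              rw [hmemB, LieSubmodule.coe_smul]
              exact (gam N 1).smul_mem t hb
          exact hle hw
        lie_mem := fun {x w} hw => hlie x w hw }
    have hSU : LieSubmodule.lieSpan F L S₀ ≤ U.map (LieSubmodule.incl N) := by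
      rw [LieSubmodule.lieSpan_le]
      intro t ht
      refine LieSubmodule.mem_map _ |>.2 ⟨⟨t, hS₀N ht⟩, ?_, rfl⟩
      change _ ∈ E
      exact AddSubgroup.mem_sup_left (AddSubgroup.subset_closure
        ⟨1, [], ⟨t, hS₀N ht⟩, ht, by rw [one_smul]; rfl⟩)
    intro n hn
    obtain ⟨u, hu, hun⟩ := LieSubmodule.mem_map _ |>.1 (hSU (hgen hn))
    have h6 : u ∈ Sv := hES hu
    rw [hmemS] at h6
    have h7 : (u : L) = n := hun
    rwa [h7] at h6

include hid in
/-- All terms are finitely generated modulo the next one. -/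
theorem gam_fg [Finite F] [Finite (L ⧸ N)] (hfg : IsFG F L) (i : ℕ) :
    ∃ S : Set L, S.Finite ∧ S ⊆ gam N i ∧
      gam N i ≤ LieSubmodule.lieSpan F L S ⊔ gam N (i + 1) := by
  obtain ⟨S₀, hS₀, hS₀N, hgen⟩ := ideal_fg N hfg
  obtain ⟨T, hT, hTN, hslot⟩ := first_slot N k c' hid S₀ hS₀ hS₀N hgen
  induction i with
  | zero => exact ⟨S₀, hS₀, hS₀N, le_trans hgen le_sup_left⟩
  | succ i ih =>
    obtain ⟨S, hS, hSi, hi⟩ := ih
    refine ⟨Set.image2 (fun t s => ⁅t, s⁆) T S, hT.image2 _ hS, ?_, ?_⟩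
    · rintro _ ⟨t, ht, s, hs, rfl⟩
      exact LieSubmodule.lie_mem_lie (hTN ht) (hSi hs)
    · set W := LieSubmodule.lieSpan F L (Set.image2 (fun t s => ⁅t, s⁆) T S) ⊔ gam N (i + 1 + 1)
        with hW
      let G : LieSubmodule F L L :=
        { carrier := {v | v ∈ gam N i ∧ ∀ n ∈ N, ⁅n, v⁆ ∈ W}
          zero_mem' := ⟨(gam N i).zero_mem, fun n _ => by rw [lie_zero]; exact W.zero_mem⟩
          add_mem' := fun {a b} ha hb => ⟨(gam N i).add_mem ha.1 hb.1, fun n hn => by
            rw [lie_add]; exact W.add_mem (ha.2 n hn) (hb.2 n hn)⟩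
          smul_mem' := fun t a ha => ⟨(gam N i).smul_mem t ha.1, fun n hn => by
            rw [lie_smul]; exact W.smul_mem t (ha.2 n hn)⟩
          lie_mem := fun {y v} hv => ⟨(gam N i).lie_mem hv.1, fun n hn => by
            have h1 : ⁅n, ⁅y, v⁆⁆ = ⁅y, ⁅n, v⁆⁆ - ⁅⁅y, n⁆, v⁆ := by
              rw [lie_lie]; abel
            rw [h1]
            exact W.sub_mem (W.lie_mem (hv.2 n hn)) (hv.2 _ (N.lie_mem hn))⟩ }
      have h1 : gam N i ≤ G := by
        refine le_trans hi (sup_le ?_ ?_)
        · rw [LieSubmodule.lieSpan_le]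
          intro s hs
          refine ⟨hSi hs, fun n hn => ?_⟩
          have h2 := hslot i s (hSi hs) n hn
          have h3 : LieSubmodule.lieSpan F L ((fun t => ⁅t, s⁆) '' T) ⊔ gam N (i + 2) ≤ W := by
            apply sup_le_sup_right
            apply LieSubmodule.lieSpan_mono
            rintro _ ⟨t, ht, rfl⟩
            exact ⟨t, ht, s, hs, rfl⟩
          exact h3 h2
        · intro v hv
          exact ⟨gam_mono_zero N i hv, fun n hn =>
            (le_sup_right : gam N (i + 1 + 1) ≤ W) (LieSubmodule.lie_mem_lie hn hv)⟩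
      have h2 : gam N (i + 1) = ⁅N, gam N i⁆ := rfl
      rw [h2, LieSubmodule.lie_le_iff]
      intro n hn v hv
      exact (h1 hv).2 n hn

end sufficiency

end Pool.Agent.Lib.MP_8f946f_al
end

section
/-!
The shift endomorphism and the Cayley-Hamilton argument.
-/
namespace Pool.Agent.Lib.MP_8f946f_al

open Polynomial

section shift

variable {F : Type} [Field F]

/-- The `F[X]`-module structure given by `ad x`. -/
@[reducible] noncomputable def adMod {P : Type} [LieRing P] [LieAlgebra F P] (x : P) :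
    Module F[X] P :=
  Module.compHom P (aeval (LieAlgebra.ad F P x)).toRingHom

lemma third_gam_le {L : Type} [LieRing L] [LieAlgebra F L] (N : LieIdeal F L) (i : ℕ) :
    third N (gam N i) ≤ gam N (i + 2) :=
  LieSubmodule.mono_lie (sup_le le_rfl (gam_le N i)) le_rfl

lemma fg_over_poly {P : Type} [LieRing P] [LieAlgebra F P] (N : LieIdeal F P) (x : P)
    (hx : ∀ u : P, ∃ α : F, u - α • x ∈ N) (c : ℕ) (hc : gam N c = ⊥)
    (hfg : ∀ i, ∃ S : Set P, S.Finite ∧ S ⊆ gam N i ∧
      gam N i ≤ LieSubmodule.lieSpan F P S ⊔ gam N (i + 1)) (d : ℕ) :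
    let _ : Module F[X] P := adMod x
    ∃ S : Set P, S.Finite ∧ S ⊆ gam N (c - d) ∧
      ∀ u ∈ gam N (c - d), u ∈ Submodule.span F[X] S := by
  let _ : Module F[X] P := adMod x
  change ∃ S : Set P, S.Finite ∧ S ⊆ gam N (c - d) ∧
      ∀ u ∈ gam N (c - d), u ∈ Submodule.span F[X] S
  induction d with
  | zero =>
    refine ⟨∅, Set.finite_empty, Set.empty_subset _, ?_⟩
    intro u hu
    rw [Nat.sub_zero, hc, LieSubmodule.mem_bot] at hu
    rw [hu]
    exact Submodule.zero_mem _
  | succ d ih =>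
    rcases Nat.lt_or_ge d c with h | h
    · obtain ⟨S₁, hS₁, hS₁m, h₁⟩ := ih
      obtain ⟨S₂, hS₂, hS₂m, h₂⟩ := hfg (c - (d + 1))
      have he : c - (d + 1) + 1 = c - d := by omega
      rw [he] at h₂
      refine ⟨S₁ ∪ S₂, hS₁.union hS₂, ?_, ?_⟩
      · rintro u (hu | hu)
        · have := hS₁m hu
          rw [← he] at this
          exact gam_mono_zero N _ this
        · exact hS₂m hu
      · have h₁' : ∀ u ∈ gam N (c - d), u ∈ Submodule.span F[X] (S₁ ∪ S₂) := fun u hu =>
          Submodule.span_mono Set.subset_union_left (h₁ u hu)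
        let U : LieSubmodule F P P :=
          { carrier := {u | u ∈ gam N (c - (d + 1)) ∧ u ∈ Submodule.span F[X] (S₁ ∪ S₂)}
            zero_mem' := ⟨(gam N (c - (d + 1))).zero_mem, Submodule.zero_mem _⟩
            add_mem' := fun {a b} ha hb => ⟨add_mem ha.1 hb.1, add_mem ha.2 hb.2⟩
            smul_mem' := fun t a ha => ⟨(gam N (c - (d + 1))).smul_mem t ha.1, by
              have h5 : (C t : F[X]) • a = t • a := by
                change (aeval (LieAlgebra.ad F P x)) (C t) a = t • a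
                rw [aeval_C, Module.algebraMap_end_apply]
              rw [← h5]
              exact Submodule.smul_mem _ _ ha.2⟩
            lie_mem := fun {y a} ha => ⟨(gam N (c - (d + 1))).lie_mem ha.1, by
              obtain ⟨α, hα⟩ := hx y
              have h6 : ⁅y, a⁆ = α • ⁅x, a⁆ + ⁅y - α • x, a⁆ := by
                rw [sub_lie, smul_lie]; abel
              rw [h6]
              apply add_mem
              · have h7 : (C α * X : F[X]) • a = α • ⁅x, a⁆ := by
                  change (aeval (LieAlgebra.ad F P x)) (C α * X) a = α • ⁅x, a⁆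
                  rw [map_mul, aeval_C, aeval_X, Module.End.mul_apply,
                    Module.algebraMap_end_apply, LieAlgebra.ad_apply]
                rw [← h7]
                exact Submodule.smul_mem _ _ ha.2
              · apply h₁'
                have h8 : ⁅y - α • x, a⁆ ∈ gam N (c - (d + 1) + 1) :=
                  LieSubmodule.lie_mem_lie hα ha.1
                rwa [he] at h8⟩ }
        have hle : gam N (c - (d + 1)) ≤ U := by
          refine le_trans h₂ (sup_le ?_ ?_)
          · rw [LieSubmodule.lieSpan_le]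
            intro s hs
            exact ⟨hS₂m hs, Submodule.subset_span (Or.inr hs)⟩
          · intro u hu
            refine ⟨?_, h₁' u hu⟩
            rw [← he] at hu
            exact gam_mono_zero N _ hu
        intro u hu
        exact (hle hu).2
    · have he : c - (d + 1) = c - d := by omega
      rw [he]
      exact ih

/-- The Cayley-Hamilton argument. -/
lemma shift_lemma {P : Type} [LieRing P] [LieAlgebra F P] (N : LieIdeal F P) (x f g : P)
    (hf : f ∈ N) (hx : ∀ u : P, ∃ α : F, u - α • x ∈ N) (c : ℕ) (hc : gam N c = ⊥)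
    (hfg : ∀ i, ∃ S : Set P, S.Finite ∧ S ⊆ gam N i ∧
      gam N i ≤ LieSubmodule.lieSpan F P S ⊔ gam N (i + 1))
    (S : P →ₗ⁅F⁆ P) (hSx : S x = x) (hSf : S f = ⁅x, f⁆) (hSg : S g = g)
    (hSN : ∀ u ∈ N, S u ∈ N) : ∃ χ : F[X][X], χ.Monic ∧ ev x f g χ = 0 := by
  let _ : Module F[X] P := adMod x
  let Q : Submodule F[X] P :=
    { carrier := {u | u ∈ N}
      zero_mem' := N.zero_mem
      add_mem' := fun {a b} ha hb => N.add_mem ha hb
      smul_mem' := fun r a ha => aeval_ad_mem N x a ha r }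
  obtain ⟨T, hT, hTN, hspan⟩ := fg_over_poly N x hx c hc hfg c
  rw [Nat.sub_self] at hTN hspan
  have hQ : Q.FG := by
    refine ⟨hT.toFinset, ?_⟩
    rw [Set.Finite.coe_toFinset]
    apply le_antisymm
    · rw [Submodule.span_le]
      intro u hu
      exact hTN hu
    · intro u hu
      exact hspan u hu
  have hfin : Module.Finite F[X] Q := Module.Finite.of_fg hQ
  let Ŝ : Q →ₗ[F[X]] Q :=
    { toFun := fun u => ⟨S u, hSN _ u.2⟩
      map_add' := fun a b => Subtype.ext (map_add S _ _)
      map_smul' := fun r a => Subtype.ext (by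
        change S ((aeval (LieAlgebra.ad F P x)) r (a : P)) =
          (aeval (LieAlgebra.ad F P x)) r (S (a : P))
        rw [aeval_ad_map, hSx]) }
  obtain ⟨χ, hχ, hχ0⟩ := LinearMap.exists_monic_and_aeval_eq_zero F[X] Ŝ
  refine ⟨χ, hχ, ?_⟩
  have hfgN : ⁅f, g⁆ ∈ N := lie_mem_left F P N f g hf
  have hpow : ∀ j : ℕ, (((Ŝ ^ j) ⟨⁅f, g⁆, hfgN⟩ : Q) : P) =
      ⁅((LieAlgebra.ad F P x) ^ j) f, g⁆ := by
    intro j
    induction j with
    | zero => rfl
    | succ j ih =>
      rw [pow_succ', Module.End.mul_apply]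
      change S (((Ŝ ^ j) ⟨⁅f, g⁆, hfgN⟩ : Q) : P) = _
      rw [ih, LieHom.map_lie, hSg, hom_ad_pow, hSx, hSf]
      congr 1
  have hall : ∀ p : F[X][X], (((aeval Ŝ p) ⟨⁅f, g⁆, hfgN⟩ : Q) : P) = ev x f g p := by
    intro p
    induction p using Polynomial.induction_on' with
    | add p q hp hq =>
      rw [map_add, LinearMap.add_apply, ev_add, ← hp, ← hq]
      rfl
    | monomial n b =>
      rw [aeval_monomial, ev_monomial, Module.End.mul_apply, ← hpow n]
      rfl
  rw [← hall, hχ0]
  rfl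

/-- The algebra of functions `N × N → L`, and the shift. -/
def shiftHom {L : Type} [LieRing L] [LieAlgebra F L] (N : LieIdeal F L) (y : L) :
    PiLie (fun _ : N × N => L) →ₗ⁅F⁆ PiLie (fun _ : N × N => L) where
  toFun := fun u p => u (⁅y, p.1⁆, p.2)
  map_add' := fun _ _ => rfl
  map_smul' := fun _ _ => rfl
  map_lie' := fun {_ _} => rfl

/-- For a fixed element `y` of an algebra of the variety and a nilpotent ideal `N`, a monic
polynomial kills all pairs of elements of `N`. -/
theorem exists_monic_kill [Finite F] {Γ : Set (FreeLieAlgebra F ℕ)} (k : ℕ) (c' : ℕ → F[X])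
    (hV : ∀ (L : Type) [LieRing L] [LieAlgebra F L], Satisfies Γ L →
      ∀ (A B : LieIdeal F L) (x f g : L), f ∈ A → g ∈ B → monicForm k c' x f g ∈ third A B)
    (L : Type) [LieRing L] [LieAlgebra F L] (hL : Satisfies Γ L) (N : LieIdeal F L) (c : ℕ)
    (hc : gam N c = ⊥) (y : L) :
    ∃ χ : F[X][X], χ.Monic ∧ ∀ f ∈ N, ∀ g ∈ N, ev y f g χ = 0 := by
  let Λ := PiLie (fun _ : N × N => L)
  let xΛ : Λ := fun _ => y
  let fΛ : Λ := fun p => (p.1 : L)
  let gΛ : Λ := fun p => (p.2 : L)
  let K : LieSubalgebra F Λ := LieSubalgebra.lieSpan F Λ {xΛ, fΛ, gΛ}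
  have hxK : xΛ ∈ K := LieSubalgebra.subset_lieSpan (by simp)
  have hfK : fΛ ∈ K := LieSubalgebra.subset_lieSpan (by simp)
  have hgK : gΛ ∈ K := LieSubalgebra.subset_lieSpan (by simp)
  have hsat : Satisfies Γ K := (Satisfies.pi (fun _ : N × N => L) (fun _ => hL)).subalgebra K
  -- the shift preserves `K`
  have hSx : shiftHom N y xΛ = xΛ := rfl
  have hSf : shiftHom N y fΛ = ⁅xΛ, fΛ⁆ := rfl
  have hSg : shiftHom N y gΛ = gΛ := rfl
  have hSK : K ≤ K.comap (shiftHom N y) := by
    change LieSubalgebra.lieSpan F Λ {xΛ, fΛ, gΛ} ≤ _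
    rw [LieSubalgebra.lieSpan_le]
    rintro u (rfl | rfl | rfl)
    · exact hxK
    · exact K.lie_mem hxK hfK
    · exact hgK
  let S : K →ₗ⁅F⁆ K :=
    { toFun := fun u => ⟨shiftHom N y u, hSK u.2⟩
      map_add' := fun _ _ => rfl
      map_smul' := fun _ _ => rfl
      map_lie' := fun {_ _} => rfl }
  -- the ideal
  let NK : LieIdeal F K :=
    { carrier := {u | ∀ p, (u : Λ) p ∈ N}
      zero_mem' := fun p => N.zero_mem
      add_mem' := fun ha hb p => N.add_mem (ha p) (hb p)
      smul_mem' := fun t _ ha p => N.smul_mem t (ha p)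
      lie_mem := fun {z u} hu p => lie_mem_right F L N _ _ (hu p) }
  have hNK : ∀ u : K, u ∈ NK ↔ ∀ p, (u : Λ) p ∈ N := fun u => Iff.rfl
  have hxx : ∀ u : K, ∃ α : F, u - α • (⟨xΛ, hxK⟩ : K) ∈ NK := by
    have h1 : ∀ u : Λ, u ∈ K → ∃ α : F, ∀ p, u p - α • y ∈ N := by
      intro u hu
      induction hu using LieSubalgebra.lieSpan_induction with
      | mem u hu =>
        rcases hu with rfl | rfl | rfl
        · refine ⟨1, fun p => ?_⟩
          rw [one_smul]
          change y - y ∈ N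
          rw [sub_self]
          exact N.zero_mem
        · refine ⟨0, fun p => ?_⟩
          rw [zero_smul, sub_zero]
          exact p.1.2
        · refine ⟨0, fun p => ?_⟩
          rw [zero_smul, sub_zero]
          exact p.2.2
      | zero =>
        refine ⟨0, fun p => ?_⟩
        rw [zero_smul, sub_zero]
        exact N.zero_mem
      | add u v _ _ hu hv =>
        obtain ⟨α, hα⟩ := hu
        obtain ⟨β, hβ⟩ := hv
        refine ⟨α + β, fun p => ?_⟩
        have : (u + v) p - (α + β) • y = (u p - α • y) + (v p - β • y) := by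
          rw [add_smul]
          change u p + v p - (α • y + β • y) = _
          abel
        rw [this]
        exact N.add_mem (hα p) (hβ p)
      | smul t u _ hu =>
        obtain ⟨α, hα⟩ := hu
        refine ⟨t * α, fun p => ?_⟩
        have : (t • u) p - (t * α) • y = t • (u p - α • y) := by
          rw [mul_smul, smul_sub]
          rfl
        rw [this]
        exact N.smul_mem t (hα p)
      | lie u v _ _ hu hv =>
        obtain ⟨α, hα⟩ := hu
        obtain ⟨β, hβ⟩ := hv
        refine ⟨0, fun p => ?_⟩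
        have : ⁅u, v⁆ p - (0 : F) • y = ⁅u p - α • y, v p⁆ + ⁅α • y, v p - β • y⁆ := by
          rw [zero_smul, sub_zero]
          change ⁅u p, v p⁆ = _
          rw [sub_lie, lie_sub, smul_lie α y (β • y), lie_smul β y y, lie_self]
          simp
        rw [this]
        exact N.add_mem (lie_mem_left F L N _ _ (hα p)) (lie_mem_right F L N _ _ (hβ p))
    intro u
    obtain ⟨α, hα⟩ := h1 u.1 u.2
    exact ⟨α, fun p => hα p⟩
  have hfin : Finite (K ⧸ NK) := by
    let ψ : F → K ⧸ NK := fun α => mkHom NK (α • (⟨xΛ, hxK⟩ : K))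
    apply Finite.of_surjective ψ
    intro v
    obtain ⟨u, rfl⟩ := mkHom_surjective NK v
    obtain ⟨α, hα⟩ := hxx u
    refine ⟨α, ?_⟩
    rw [← mkHom_eq_zero, map_sub, sub_eq_zero] at hα
    exact hα.symm
  have hgam : ∀ (i : ℕ) (u : K), u ∈ gam NK i → ∀ p, (u : Λ) p ∈ gam N i := by
    intro i
    induction i with
    | zero => intro u hu; exact hu
    | succ i ih =>
      let U : LieSubmodule F K K :=
        { carrier := {u | ∀ p, (u : Λ) p ∈ gam N (i + 1)}
          zero_mem' := fun p => (gam N (i + 1)).zero_mem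
          add_mem' := fun ha hb p => (gam N (i + 1)).add_mem (ha p) (hb p)
          smul_mem' := fun t _ ha p => (gam N (i + 1)).smul_mem t (ha p)
          lie_mem := fun {z u} hu p => lie_mem_right F L (gam N (i + 1)) _ _ (hu p) }
      have h1 : gam NK (i + 1) ≤ U := by
        change ⁅NK, gam NK i⁆ ≤ U
        rw [LieSubmodule.lie_le_iff]
        intro n hn u hu p
        exact LieSubmodule.lie_mem_lie (hn p) (ih u hu p)
      exact fun u hu => h1 hu
  have hcK : gam NK c = ⊥ := by
    rw [eq_bot_iff]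
    intro u hu
    rw [LieSubmodule.mem_bot]
    apply Subtype.ext
    funext p
    have := hgam c u hu p
    rw [hc, LieSubmodule.mem_bot] at this
    exact this
  have hfg : IsFG F K := ⟨_, by simp, lieSpan_subtype_eq_top xΛ fΛ gΛ⟩
  have hid : ∀ (i : ℕ) (x : K), ∀ f ∈ NK, ∀ g ∈ gam NK i,
      monicForm k c' x f g ∈ gam NK (i + 2) := fun i x f hf g hg =>
    third_gam_le NK i (hV K hsat NK (gam NK i) x f g hf hg)
  obtain ⟨χ, hχ, h0⟩ := shift_lemma NK (⟨xΛ, hxK⟩ : K) ⟨fΛ, hfK⟩ ⟨gΛ, hgK⟩ (fun p => p.1.2)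
    hxx c hcK (gam_fg NK k c' hid hfg) S rfl rfl rfl (fun u hu p => hu _)
  refine ⟨χ, hχ, fun f hf g hg => ?_⟩
  have h1 := map_ev ((piProj (F := F) (fun _ : N × N => L) (⟨f, hf⟩, ⟨g, hg⟩)).comp K.incl)
    (⟨xΛ, hxK⟩ : K) ⟨fΛ, hfK⟩ ⟨gΛ, hgK⟩ χ
  rw [h0, map_zero] at h1
  exact h1.symm

end shift

end Pool.Agent.Lib.MP_8f946f_al
end

section
/-!
Sufficiency: monolithic algebras are finite.
-/
namespace Pool.Agent.Lib.MP_8f946f_al

open Polynomial

section sufficiency

variable {F : Type} [Field F] {L : Type} [LieRing L] [LieAlgebra F L] (N : LieIdeal F L)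

lemma ev_C_mul_X_pow (x f g : L) (a : F[X]) (j : ℕ) : ev x f g (C a * X ^ j) =
    (aeval (LieAlgebra.ad F L x) a) ⁅((LieAlgebra.ad F L x) ^ j) f, g⁆ := by
  rw [C_mul_X_pow_eq_monomial, ev_monomial]

lemma ev_X_pow (x f g : L) (j : ℕ) : ev (F := F) x f g (X ^ j) =
    ⁅((LieAlgebra.ad F L x) ^ j) f, g⁆ := by
  have : (X : F[X][X]) ^ j = C 1 * X ^ j := by rw [C_1, one_mul]
  rw [this, ev_C_mul_X_pow, map_one, Module.End.one_apply]

lemma ev_sum {ι : Type} (x f g : L) (s : Finset ι) (h : ι → F[X][X]) :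
    ev x f g (∑ i ∈ s, h i) = ∑ i ∈ s, ev x f g (h i) := map_sum (evHom x f g) h s

lemma ev_low (k : ℕ) (x f g : L) (h : F[X][X]) (hk : h.degree < k) : ev x f g h =
    ∑ j ∈ Finset.range k, (aeval (LieAlgebra.ad F L x) (h.coeff j))
      ⁅((LieAlgebra.ad F L x) ^ j) f, g⁆ := by
  rcases Nat.eq_zero_or_pos k with h0 | h0
  · subst h0
    have : h = 0 := by
      rw [← degree_eq_bot]
      exact (Nat.WithBot.lt_zero_iff).1 hk
    rw [this, ev_zero]
    simp
  · have hnd : h.natDegree < k := by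
      by_cases hne : h = 0
      · rw [hne, natDegree_zero]; exact h0
      · exact (natDegree_lt_iff_degree_lt hne).2 hk
    conv_lhs => rw [as_sum_range' h k hnd]
    rw [ev_sum]
    apply Finset.sum_congr rfl
    intro j _
    rw [ev_monomial]

lemma ev_mul_zero (χ : F[X][X]) (y : L) (h0 : ∀ f ∈ N, ∀ g ∈ N, ev y f g χ = 0) (f g : L)
    (hf : f ∈ N) (hg : g ∈ N) (q : F[X][X]) : ev y f g (q * χ) = 0 := by
  induction q using Polynomial.induction_on' with
  | add p q hp hq => rw [add_mul, ev_add, hp, hq, add_zero]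
  | monomial n b =>
    rw [← C_mul_X_pow_eq_monomial, mul_assoc, ev_C_mul, ev_X_pow_mul,
      h0 _ (ad_pow_mem N y f hf n) g hg, map_zero]

/-- Periodicity modulo the centralizer of `N`. -/
lemma periodic_gam (χ : F[X][X]) (hχ : χ.Monic) (y : L)
    (h0 : ∀ f ∈ N, ∀ g ∈ N, ev y f g χ = 0) (i : ℕ) [Finite (gam N (i + 1))] :
    ∃ m n : ℕ, m < n ∧ ∀ f ∈ gam N i, ∀ g ∈ N, ⁅((LieAlgebra.ad F L y) ^ n) f -
      ((LieAlgebra.ad F L y) ^ m) f, g⁆ = 0 := by
  let k := χ.natDegree
  let G' := gam N (i + 1)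
  let Ψ : ℕ → Fin k → G' → G' := fun n j u =>
    ⟨(aeval (LieAlgebra.ad F L y) ((X ^ n %ₘ χ).coeff j)) (u : L),
      aeval_ad_mem _ _ _ u.2 _⟩
  have key : ∀ a b : ℕ, Ψ a = Ψ b → ∀ f ∈ gam N i, ∀ g ∈ N, ⁅((LieAlgebra.ad F L y) ^ a) f -
      ((LieAlgebra.ad F L y) ^ b) f, g⁆ = 0 := by
    intro a b hab f hf g hg
    have hfN := gam_le N i hf
    have hred : ∀ n : ℕ, ⁅((LieAlgebra.ad F L y) ^ n) f, g⁆ =
        ∑ j ∈ Finset.range k, (aeval (LieAlgebra.ad F L y) ((X ^ n %ₘ χ).coeff j))
          ⁅((LieAlgebra.ad F L y) ^ j) f, g⁆ := by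
      intro n
      rw [← ev_X_pow, ← ev_low k]
      · conv_lhs => rw [← modByMonic_add_div (X ^ n) χ]
        rw [ev_add, mul_comm, ev_mul_zero N χ y h0 f g hfN hg, add_zero]
      · have h3 : χ.degree = (k : WithBot ℕ) := degree_eq_natDegree hχ.ne_zero
        rw [← h3]
        exact degree_modByMonic_lt _ hχ
    rw [sub_lie, hred a, hred b, ← Finset.sum_sub_distrib]
    apply Finset.sum_eq_zero
    intro j hj
    have hu : ⁅((LieAlgebra.ad F L y) ^ j) f, g⁆ ∈ gam N (i + 1) := by
      rw [← lie_skew]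
      exact neg_mem (LieSubmodule.lie_mem_lie hg (ad_pow_mem _ y f hf j))
    have h1 := congrFun (congrFun hab ⟨j, Finset.mem_range.1 hj⟩)
      ⟨⁅((LieAlgebra.ad F L y) ^ j) f, g⁆, hu⟩
    have h2 := congrArg (fun u : G' => (u : L)) h1
    simp only [Ψ] at h2
    rw [h2, sub_self]
  have hG' : Finite G' := inferInstance
  obtain ⟨a, b, hab, heq⟩ := Finite.exists_ne_map_eq_of_infinite Ψ
  rcases lt_or_gt_of_ne hab with h | h
  · exact ⟨a, b, h, key b a heq.symm⟩
  · exact ⟨b, a, h, key a b heq⟩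

/-- The main finiteness result: monolithic algebras are finite. -/
theorem finite_of_mono [Finite F] [Finite (L ⧸ N)] (k : ℕ) (c' : ℕ → F[X])
    (hid : ∀ (i : ℕ) (x : L), ∀ f ∈ N, ∀ g ∈ gam N i, monicForm k c' x f g ∈ gam N (i + 2))
    (hkill : ∀ y : L, ∃ χ : F[X][X], χ.Monic ∧ ∀ f ∈ N, ∀ g ∈ N, ev y f g χ = 0)
    (hfg : IsFG F L) (c : ℕ)
    (hc : gam N c = ⊥) (z₀ : L) (hz₀ : z₀ ≠ 0) (hz : ∀ U : LieIdeal F L, U ≠ ⊥ → z₀ ∈ U) :
    Finite L := by
  have step : ∀ i : ℕ, Finite (gam N (i + 1)) → Finite (gam N i) := by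
    intro i hfin
    obtain ⟨S, hS, hSi, hgen⟩ := gam_fg N k c' hid hfg i
    let Cz : LieSubmodule F L L :=
      { carrier := {f | f ∈ gam N i ∧ ∀ g ∈ N, ⁅f, g⁆ = 0}
        zero_mem' := ⟨(gam N i).zero_mem, fun g _ => zero_lie g⟩
        add_mem' := fun {a b} ha hb => ⟨(gam N i).add_mem ha.1 hb.1, fun g hg => by
          rw [add_lie, ha.2 g hg, hb.2 g hg, add_zero]⟩
        smul_mem' := fun t a ha => ⟨(gam N i).smul_mem t ha.1, fun g hg => by
          rw [smul_lie, ha.2 g hg, smul_zero]⟩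
        lie_mem := fun {y v} hv => ⟨(gam N i).lie_mem hv.1, fun g hg => by
          rw [lie_lie, hv.2 g hg, hv.2 _ (N.lie_mem hg), lie_zero, sub_zero]⟩ }
    have hCz : Cz ≤ gam N i := fun f hf => hf.1
    have hAB : ∀ n ∈ N, ∀ a ∈ gam N i, ⁅n, a⁆ ∈ gam N (i + 1) := fun n hn a ha =>
      LieSubmodule.lie_mem_lie hn ha
    obtain ⟨T, hT, hTC, hTgen⟩ := fg_sub N (gam N i) (gam N (i + 1)) Cz hAB S hS hSi hgen hCz
    have hfinC : Finite Cz := by
      refine fin_mono N Cz ?_ (T ∪ ((gam N (i + 1) : Set L) ∩ (Cz : Set L))) ?_ ?_ ?_ z₀ hz₀ hz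
      · intro n hn a ha
        rw [← lie_skew, ha.2 n hn, neg_zero]
      · have h1 : (gam N (i + 1) : Set L).Finite := hfin
        exact hT.union (h1.inter_of_left _)
      · rintro x (hx | hx)
        · exact hTC hx
        · exact hx.2
      · intro x hx
        obtain ⟨u, hu, b, hb, hub⟩ := (LieSubmodule.mem_sup _ _ _).1 (hTgen hx)
        have hu' : u ∈ Cz := (LieSubmodule.lieSpan_le.2 hTC) hu
        have hb' : b ∈ Cz := by
          have : b = x - u := by rw [← hub]; abel
          rw [this]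
          exact sub_mem hx hu'
        rw [← hub]
        exact add_mem (LieSubmodule.lieSpan_mono Set.subset_union_left hu)
          (LieSubmodule.subset_lieSpan (Or.inr ⟨hb, hb'⟩))
    have hfinB : Finite ↥(Cz ⊔ gam N (i + 1)) := by
      have h1 : (Cz : Set L).Finite := hfinC
      have h2 : (gam N (i + 1) : Set L).Finite := hfin
      have h3 : ((Cz ⊔ gam N (i + 1) : LieSubmodule F L L) : Set L).Finite := by
        refine (h1.image2 (fun a b => a + b) h2).subset ?_
        intro x hx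
        obtain ⟨u, hu, b, hb, hub⟩ := (LieSubmodule.mem_sup _ _ _).1 hx
        exact ⟨u, hu, b, hb, hub⟩
      exact h3
    refine fin_per N (gam N i) (Cz ⊔ gam N (i + 1)) ?_ S hS hSi ?_ ?_
    · intro n hn a ha
      exact (le_sup_right : gam N (i + 1) ≤ _) (hAB n hn a ha)
    · exact le_trans hgen (sup_le_sup_left le_sup_right _)
    · intro y
      obtain ⟨χ, hχ, h0⟩ := hkill y
      obtain ⟨m, n, hmn, h⟩ := periodic_gam N χ hχ y h0 i
      refine ⟨m, n, hmn, fun a ha => ?_⟩
      apply (le_sup_left : Cz ≤ _)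
      exact ⟨sub_mem (ad_pow_mem _ y a ha n) (ad_pow_mem _ y a ha m), h a ha⟩
  have hall : ∀ d : ℕ, Finite (gam N (c - d)) := by
    intro d
    induction d with
    | zero =>
      rw [Nat.sub_zero, hc]
      infer_instance
    | succ d ih =>
      rcases Nat.lt_or_ge d c with h | h
      · apply step
        have : c - (d + 1) + 1 = c - d := by omega
        rw [this]
        exact ih
      · have : c - (d + 1) = c - d := by omega
        rw [this]
        exact ih
  have h0 := hall c
  rw [Nat.sub_self] at h0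
  let K : AddSubgroup L := N.toSubmodule.toAddSubgroup
  have i1 : Finite K := h0
  have i2 : Finite (L ⧸ K) := inferInstanceAs (Finite (L ⧸ N))
  exact Finite.of_addSubgroup_quotient K

end sufficiency

end Pool.Agent.Lib.MP_8f946f_al
end

section
/-!
The classification theorem for locally nilpotent-by-finite varieties.
-/
namespace Pool.Agent.Lib.MP_8f946f_al

open Polynomial

section main

variable {F : Type} [Field F]

/-- Every non-zero element is avoided by a maximal ideal avoiding it. -/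
lemma exists_maximal_avoiding {L : Type} [LieRing L] [LieAlgebra F L] (a : L) (ha : a ≠ 0) :
    ∃ I : LieIdeal F L, a ∉ I ∧ ∀ J : LieIdeal F L, I ≤ J → a ∉ J → J ≤ I := by
  obtain ⟨m, -, hm⟩ := zorn_le_nonempty₀ {I : LieIdeal F L | a ∉ I} (by
    intro c hc hchain I₀ hI₀
    let U : LieIdeal F L :=
      { carrier := {y | ∃ I ∈ c, y ∈ I}
        zero_mem' := ⟨I₀, hI₀, I₀.zero_mem⟩
        add_mem' := by
          rintro y z ⟨I, hI, hy⟩ ⟨J, hJ, hz⟩
          rcases hchain.total hI hJ with h | h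
          · exact ⟨J, hJ, J.add_mem (h hy) hz⟩
          · exact ⟨I, hI, I.add_mem hy (h hz)⟩
        smul_mem' := by
          rintro t y ⟨I, hI, hy⟩
          exact ⟨I, hI, I.smul_mem t hy⟩
        lie_mem := by
          rintro x y ⟨I, hI, hy⟩
          exact ⟨I, hI, lie_mem_right F L I x y hy⟩ }
    refine ⟨U, ?_, fun I hI y hy => ⟨I, hI, hy⟩⟩
    rintro ⟨I, hI, hy⟩
    exact hc hI hy) ⊥ (by
      change a ∉ (⊥ : LieIdeal F L)
      rw [LieSubmodule.mem_bot]
      exact ha)
  exact ⟨m, hm.prop, fun J hJ haJ => hm.le_of_ge haJ hJ⟩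

/-- Sufficiency. -/
theorem locallyRF_of_hasMonicIdentity [Finite F] {Γ : Set (FreeLieAlgebra F ℕ)}
    (hΓ : LocallyNilpotentByFinite Γ) (hid : HasMonicIdentity Γ) : LocallyRF Γ := by
  obtain ⟨k, c', w, hw, hV⟩ := hid
  have hV' : ∀ (L : Type) [LieRing L] [LieAlgebra F L], Satisfies Γ L →
      ∀ (A B : LieIdeal F L) (x f g : L), f ∈ A → g ∈ B → monicForm k c' x f g ∈ third A B := by
    intro L _ _ hL A B x f g hf hg
    exact monicForm_mem_third k c' w hw L (hV L hL) A B x f g hf hg
  intro L _ _ hL hfg a ha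
  obtain ⟨I, haI, hI⟩ := exists_maximal_avoiding (F := F) a ha
  refine ⟨I, ?_, haI⟩
  have hsat : Satisfies Γ (L ⧸ I) := hL.quotient I
  have hfg' : IsFG F (L ⧸ I) := hfg.of_surjective (mkHom I) (mkHom_surjective I)
  obtain ⟨N, c, hQ, hc⟩ := hΓ (L ⧸ I) hsat hfg'
  have hQ' : Finite ((L ⧸ I) ⧸ N) := Module.finite_of_finite F
  have hfin : Finite (L ⧸ I) := by
    refine finite_of_mono N k c' (fun i x f hf g hg =>
        third_gam_le N i (hV' (L ⧸ I) hsat N (gam N i) x f g hf hg))
      (fun y => exists_monic_kill k c' hV' (L ⧸ I) hsat N c hc y) hfg' c hc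
      (mkHom I a) ?_ ?_
    · rw [Ne, mkHom_eq_zero]
      exact haI
    · intro U hU
      by_contra hcon
      apply hU
      have h1 : LieIdeal.comap (mkHom I) U ≤ I := by
        apply hI
        · intro y hy
          rw [LieIdeal.mem_comap, (mkHom_eq_zero I y).2 hy]
          exact U.zero_mem
        · rw [LieIdeal.mem_comap]
          exact hcon
      rw [eq_bot_iff]
      intro u hu
      obtain ⟨y, rfl⟩ := mkHom_surjective I u
      rw [LieSubmodule.mem_bot, mkHom_eq_zero]
      exact h1 (LieIdeal.mem_comap.2 hu)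
  exact Module.Finite.of_finite

/-- Varieties contained in `N_c W`, with `W` locally finite, are locally nilpotent-by-finite. -/
theorem locallyNilpotentByFinite_of (Γ Δ : Set (FreeLieAlgebra F ℕ)) (hΔ : LocallyFinite Δ)
    (c : ℕ) (hc : ∀ (L : Type) [LieRing L] [LieAlgebra F L], Satisfies Γ L →
      gam (verbal Δ L) c = ⊥) : LocallyNilpotentByFinite Γ := by
  intro L _ _ hL hfg
  exact ⟨verbal Δ L, c, hΔ _ (satisfies_quot_verbal Δ L)
      (hfg.of_surjective (mkHom (verbal Δ L)) (mkHom_surjective _)), hc L hL⟩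

end main

end Pool.Agent.Lib.MP_8f946f_al
end
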